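import Mathlib

/-! Galvin's lemma on families of finite sets of natural numbers (helper86). -/

set_option autoImplicit false

namespace Pool.Agent.K1H86.TZ

open Finset

/-- the elements of `N` below `k` -/
noncomputable def cut (N : Set ℕ) (k : ℕ) : Finset ℕ :=
  open Classical in (range k).filter (fun x => x ∈ N)

theorem mem_cut {N : Set ℕ} {k x : ℕ} : x ∈ cut N k ↔ x < k ∧ x ∈ N := by
  unfold cut
  simp only [mem_filter, mem_range]

/-- the elements of `M` above all elements of `s` -/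
def above (s : Finset ℕ) (M : Set ℕ) : Set ℕ := {x | x ∈ M ∧ ∀ y ∈ s, y < x}

theorem above_sub (s : Finset ℕ) (M : Set ℕ) : above s M ⊆ M := fun _ h => h.1

theorem above_inf (s : Finset ℕ) {M : Set ℕ} (hM : M.Infinite) : (above s M).Infinite := by
  have h1 : above s M = M \ {x | ∃ y ∈ s, x ≤ y} := by
    ext x
    constructor
    · rintro ⟨h1, h2⟩
      refine ⟨h1, ?_⟩
      rintro ⟨y, hy, hxy⟩
      exact absurd (h2 y hy) (by omega)
    · rintro ⟨h1, h2⟩
      refine ⟨h1, fun y hy => ?_⟩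
      by_contra hcon
      exact h2 ⟨y, hy, by omega⟩
  rw [h1]
  refine hM.sdiff ?_
  apply (Set.finite_Iic (s.sup id)).subset
  rintro x ⟨y, hy, hxy⟩
  exact hxy.trans (Finset.le_sup (f := id) hy)

section diag

variable {D : Set ℕ → Finset ℕ → Prop}

/-- finitely many decisions -/
theorem dec_fin (mono : ∀ M N s, N ⊆ M → D M s → D N s)
    (dense : ∀ M s, M.Infinite → ∃ N ⊆ M, N.Infinite ∧ D N s) (S : Finset (Finset ℕ)) (M : Set ℕ)
    (hM : M.Infinite) : ∃ N ⊆ M, N.Infinite ∧ ∀ s ∈ S, D N s := by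
  classical
  induction S using Finset.induction_on with
  | empty => exact ⟨M, subset_rfl, hM, by simp⟩
  | insert s S hs ih =>
    obtain ⟨N, hN, hNi, hND⟩ := ih
    obtain ⟨N', hN', hNi', hND'⟩ := dense N s hNi
    refine ⟨N', hN'.trans hN, hNi', fun t ht => ?_⟩
    rcases mem_insert.1 ht with rfl | ht
    · exact hND'
    · exact mono _ _ _ hN' (hND t ht)

/-- the states of the construction -/
structure St (D : Set ℕ → Finset ℕ → Prop) where
  F : Finset ℕ
  M : Set ℕ
  inf : M.Infinite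
  lt : ∀ x ∈ F, ∀ y ∈ M, x < y
  dec : ∀ s ⊆ F, D M s

theorem step (mono : ∀ M N s, N ⊆ M → D M s → D N s)
    (dense : ∀ M s, M.Infinite → ∃ N ⊆ M, N.Infinite ∧ D N s) (p : St D) :
    ∃ (m : ℕ) (q : St D), m ∈ p.M ∧ q.F = insert m p.F ∧ q.M ⊆ p.M := by
  classical
  obtain ⟨m, hm⟩ := p.inf.nonempty
  obtain ⟨N, hN, hNi, hND⟩ := dec_fin mono dense (insert m p.F).powerset (above (insert m p.F) p.M)
    (above_inf _ p.inf)
  refine ⟨m, ⟨insert m p.F, N, hNi, fun x hx y hy => (hN hy).2 x hx, fun s hs => hND s (mem_powerset.2 hs)⟩,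
    hm, rfl, hN.trans (above_sub _ _)⟩

theorem diagonal (mono : ∀ M N s, N ⊆ M → D M s → D N s)
    (tail : ∀ M s, D (above s M) s → D M s)
    (dense : ∀ M s, M.Infinite → ∃ N ⊆ M, N.Infinite ∧ D N s) (M : Set ℕ) (hM : M.Infinite) :
    ∃ N ⊆ M, N.Infinite ∧ ∀ s : Finset ℕ, (s : Set ℕ) ⊆ N → D N s := by
  classical
  obtain ⟨M0, hM0, hM0i, hM0D⟩ := dense M ∅ hM
  let p0 : St D := ⟨∅, M0, hM0i, by simp, by
    intro s hs
    rw [subset_empty] at hs
    rw [hs]
    exact hM0D⟩
  choose mm nx h1 h2 h3 using step mono dense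
  let p : ℕ → St D := fun n => Nat.rec p0 (fun _ q => nx q) n
  have hp0 : p 0 = p0 := rfl
  have hps : ∀ n, p (n + 1) = nx (p n) := fun n => rfl
  have hMd : ∀ a b, a ≤ b → (p b).M ⊆ (p a).M := by
    intro a b hab
    induction b, hab using Nat.le_induction with
    | base => exact subset_rfl
    | succ b _ ih => rw [hps]; exact (h3 _).trans ih
  have hFd : ∀ a b, a ≤ b → (p a).F ⊆ (p b).F := by
    intro a b hab
    induction b, hab using Nat.le_induction with
    | base => exact subset_rfl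
    | succ b _ ih => rw [hps, h2]; exact ih.trans (subset_insert _ _)
  set w : ℕ → ℕ := fun n => mm (p n) with hw
  have hwM : ∀ n, w n ∈ (p n).M := fun n => h1 _
  have hwF : ∀ a b, a < b → w a ∈ (p b).F := by
    intro a b hab
    apply hFd (a + 1) b hab
    rw [hps, h2]
    exact mem_insert_self _ _
  have hwm : StrictMono w := by
    apply strictMono_nat_of_lt_succ
    intro n
    exact (p (n + 1)).lt _ (hwF n (n + 1) (Nat.lt_succ_self n)) _ (hwM (n + 1))
  refine ⟨Set.range w, ?_, Set.infinite_range_of_injective hwm.injective, fun s hs => ?_⟩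
  · rintro _ ⟨n, rfl⟩
    have := hMd 0 n (Nat.zero_le _) (hwM n)
    rw [hp0] at this
    exact hM0 this
  · apply tail
    rcases s.eq_empty_or_nonempty with rfl | hne
    · refine mono M0 _ _ ?_ hM0D
      rintro x ⟨⟨n, rfl⟩, _⟩
      exact hMd 0 n (Nat.zero_le _) (hwM n)
    · obtain ⟨j, hj⟩ := hs (s.max'_mem hne)
      have hsF : s ⊆ (p (j + 1)).F := by
        intro x hx
        obtain ⟨i, hi⟩ := hs hx
        rw [← hi]
        refine hwF i (j + 1) ?_
        have h4 : w i ≤ w j := by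
          rw [hj, hi]
          exact s.le_max' x hx
        have h5 : i ≤ j := hwm.le_iff_le.1 h4
        omega
      refine mono _ _ _ ?_ ((p (j + 1)).dec s hsF)
      rintro x ⟨⟨n, rfl⟩, hx⟩
      have h4 := hx _ (s.max'_mem hne)
      rw [← hj] at h4
      have h5 : j < n := hwm.lt_iff_lt.1 h4
      exact hMd (j + 1) n h5 (hwM n)

end diag

section galvin

variable (B : Finset ℕ → Prop)

/-- `M` accepts `s` -/
def Acc (M : Set ℕ) (s : Finset ℕ) : Prop :=
  ∀ N ⊆ above s M, N.Infinite → ∃ k, B (cut ((s : Set ℕ) ∪ N) k)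

/-- `M` rejects `s` -/
def Rej (M : Set ℕ) (s : Finset ℕ) : Prop :=
  ∀ N ⊆ above s M, N.Infinite → ¬ Acc B N s

theorem above_mono (s : Finset ℕ) {M N : Set ℕ} (h : N ⊆ M) : above s N ⊆ above s M :=
  fun _ hx => ⟨h hx.1, hx.2⟩

theorem above_idem (s : Finset ℕ) (M : Set ℕ) : above s (above s M) = above s M := by
  ext x
  exact ⟨fun h => h.1, fun h => ⟨h, h.2⟩⟩

theorem Acc.mono {M N : Set ℕ} {s : Finset ℕ} (h : Acc B M s) (hNM : N ⊆ M) : Acc B N s :=
  fun N' hN' => h N' (hN'.trans (above_mono s hNM))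

theorem Rej.mono {M N : Set ℕ} {s : Finset ℕ} (h : Rej B M s) (hNM : N ⊆ M) : Rej B N s :=
  fun N' hN' => h N' (hN'.trans (above_mono s hNM))

theorem galvin (M : Set ℕ) (hM : M.Infinite) : ∃ T ⊆ M, T.Infinite ∧
    ((∀ s : Finset ℕ, (s : Set ℕ) ⊆ T → ¬ B s) ∨ (∀ N ⊆ T, N.Infinite → ∃ k, B (cut N k))) := by
  classical
  -- all finite subsets are decided
  obtain ⟨M', hM'M, hM', hdec⟩ := diagonal (D := fun M s => Acc B M s ∨ Rej B M s)
    (fun M N s h h' => h'.imp (fun h1 => h1.mono B h) (fun h1 => h1.mono B h))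
    (fun M s h => h.imp (fun h1 => by
        intro N hN
        apply h1
        rw [above_idem]
        exact hN) (fun h1 => by
        intro N hN
        apply h1
        rw [above_idem]
        exact hN))
    (fun M s hM => by
      by_cases h : Rej B M s
      · exact ⟨M, subset_rfl, hM, Or.inr h⟩
      · unfold Rej at h
        push Not at h
        obtain ⟨N, hN, hNi, hA⟩ := h
        exact ⟨N, hN.trans (above_sub _ _), hNi, Or.inl hA⟩) M hM
  rcases hdec ∅ (by simp) with h0 | h0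
  · refine ⟨M', hM'M, hM', Or.inr fun N hN hNi => ?_⟩
    obtain ⟨k, hk⟩ := h0 N (fun x hx => ⟨hN hx, by simp⟩) hNi
    rw [coe_empty, Set.empty_union] at hk
    exact ⟨k, hk⟩
  -- one more element
  have hone : ∀ s : Finset ℕ, (s : Set ℕ) ⊆ M' → Rej B M' s →
      {n | n ∈ above s M' ∧ ¬ Rej B M' (insert n s)}.Finite := by
    intro s hs hR
    by_contra hinf
    refine hR _ (fun n hn => hn.1) hinf ?_
    intro N hN hNi
    have hNne := hNi.nonempty
    set n := sInf N with hn
    have hnN : n ∈ N := Nat.sInf_mem hNne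
    have hn1 := (hN hnN).1
    have hns : (↑(insert n s) : Set ℕ) ⊆ M' := by
      rw [coe_insert]
      exact Set.insert_subset hn1.1.1 hs
    have hacc : Acc B M' (insert n s) := (hdec _ hns).resolve_right hn1.2
    obtain ⟨k, hk⟩ := hacc (N \ {n}) (by
      rintro x ⟨hx, hxn⟩
      refine ⟨(hN hx).1.1.1, fun y hy => ?_⟩
      rcases mem_insert.1 hy with rfl | hy
      · have h1 : n ≤ x := Nat.sInf_le hx
        have h2 : x ≠ n := hxn
        omega
      · exact (hN hx).2 y hy) (hNi.sdiff (Set.finite_singleton _))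
    refine ⟨k, ?_⟩
    have h1 : ((↑(insert n s) : Set ℕ) ∪ (N \ {n})) = (s : Set ℕ) ∪ N := by
      ext x
      simp only [coe_insert, Set.mem_union, Set.mem_insert_iff, mem_coe, Set.mem_sdiff,
        Set.mem_singleton_iff]
      constructor
      · rintro ((rfl | h) | h)
        · exact Or.inr hnN
        · exact Or.inl h
        · exact Or.inr h.1
      · rintro (h | h)
        · exact Or.inl (Or.inr h)
        · by_cases hxn : x = n
          · exact Or.inl (Or.inl hxn)
          · exact Or.inr ⟨h, hxn⟩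
    rw [h1] at hk
    exact hk
  obtain ⟨T, hTM, hT, hTD⟩ := diagonal
    (D := fun N s => ∀ n ∈ above s N, n ∈ M' → (s : Set ℕ) ⊆ M' → Rej B M' s → Rej B M' (insert n s))
    (fun M N s h h' n hn => h' n (above_mono s h hn))
    (fun M s h n hn => h n (by rw [above_idem]; exact hn))
    (fun M s hM => by
      by_cases hs : (s : Set ℕ) ⊆ M' ∧ Rej B M' s
      · refine ⟨M \ {n | n ∈ above s M' ∧ ¬ Rej B M' (insert n s)}, Set.sdiff_subset,
          hM.sdiff (hone s hs.1 hs.2), fun n hn hnM _ _ => ?_⟩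
        by_contra hcon
        exact hn.1.2 ⟨⟨hnM, hn.2⟩, hcon⟩
      · exact ⟨M, subset_rfl, hM, fun n _ _ h1 h2 => absurd ⟨h1, h2⟩ hs⟩) M' hM'
  have hall : ∀ s : Finset ℕ, (s : Set ℕ) ⊆ T → Rej B M' s := by
    intro s
    induction s using Finset.induction_on_max with
    | empty => exact fun _ => h0
    | insert a s ha ih =>
      intro hs
      rw [coe_insert, Set.insert_subset_iff] at hs
      exact hTD s hs.2 a ⟨hs.1, ha⟩ (hTM hs.1) (hs.2.trans hTM) (ih hs.2)
  refine ⟨T, hTM.trans hM'M, hT, Or.inl fun s hs hB => ?_⟩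
  refine hall s hs (above s M') subset_rfl (above_inf s hM') ?_
  intro N hN _
  refine ⟨s.sup (fun y => y + 1), ?_⟩
  have h1 : cut ((s : Set ℕ) ∪ N) (s.sup (fun y => y + 1)) = s := by
    ext x
    rw [mem_cut]
    constructor
    · rintro ⟨h2, h3 | h3⟩
      · exact h3
      · exfalso
        obtain ⟨y, hy, hy2⟩ := (Finset.lt_sup_iff).1 h2
        have h4 := (hN h3).2 y hy
        omega
    · intro h2
      refine ⟨?_, Or.inl h2⟩
      have h3 : x + 1 ≤ s.sup (fun y => y + 1) := Finset.le_sup (f := fun y => y + 1) h2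
      omega
  rw [h1]
  exact hB

end galvin

end Pool.Agent.K1H86.TZ
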