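import Mathlib

/-! Limits of finitely additive measures on patterns, and a pattern which meets infinitely many blocks
(after Bergelson's intersectivity lemma) (helper86). -/

set_option autoImplicit false

namespace Pool.Agent.K1H86.TZ

open Finset Filter Topology

/-- finitely additive, with values in `[0, 1]` -/
structure FA {α : Type*} (m : Set α → ℝ) : Prop where
  nonneg : ∀ A, 0 ≤ m A
  le_one : ∀ A, m A ≤ 1
  add : ∀ A B, Disjoint A B → m (A ∪ B) = m A + m B

namespace FA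

variable {α : Type*} {m : Set α → ℝ}

theorem mono (h : FA m) {A B : Set α} (hAB : A ⊆ B) : m A ≤ m B := by
  have h1 := h.add A (B \ A) Set.disjoint_sdiff_right
  rw [Set.union_sdiff_cancel hAB] at h1
  have h2 := h.nonneg (B \ A)
  linarith

theorem empty (h : FA m) : m ∅ = 0 := by
  have h1 := h.add ∅ ∅ (Set.disjoint_empty _)
  rw [Set.union_empty] at h1
  linarith

theorem split (h : FA m) (A B : Set α) : m A = m (A ∩ B) + m (A \ B) := by
  have h1 := h.add (A ∩ B) (A \ B) (by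
    rw [Set.disjoint_left]
    rintro x ⟨_, h1⟩ ⟨_, h2⟩
    exact h2 h1)
  rw [Set.inter_union_sdiff] at h1
  exact h1

theorem union_le (h : FA m) (A B : Set α) : m (A ∪ B) ≤ m A + m B := by
  have h1 := h.add A (B \ A) Set.disjoint_sdiff_right
  rw [Set.union_sdiff_self] at h1
  have h2 : m (B \ A) ≤ m B := h.mono Set.sdiff_subset
  linarith

theorem biUnion_le {ι : Type*} (h : FA m) (S : Finset ι) (A : ι → Set α) :
    m (⋃ i ∈ S, A i) ≤ ∑ i ∈ S, m (A i) := by
  classical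
  induction S using Finset.induction_on with
  | empty => simp [h.empty]
  | insert i S hi ih =>
    rw [Finset.set_biUnion_insert, sum_insert hi]
    exact (h.union_le _ _).trans (by linarith)

end FA

theorem exists_lim {α : Type*} (P : ℕ → Set α → ℝ) (hP : ∀ J, FA (P J)) (F : Ultrafilter ℕ) :
    ∃ m : Set α → ℝ, FA m ∧ ∀ A, Tendsto (fun J => P J A) F (𝓝 (m A)) := by
  have h1 : ∀ A : Set α, ∃ x ∈ Set.Icc (0 : ℝ) 1, Tendsto (fun J => P J A) F (𝓝 x) := by
    intro A
    have h2 : ((F.map (fun J => P J A) : Ultrafilter ℝ) : Filter ℝ) ≤ 𝓟 (Set.Icc (0 : ℝ) 1) := by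
      rw [le_principal_iff]
      have h3 : (fun J => P J A) ⁻¹' Set.Icc (0 : ℝ) 1 = Set.univ := by
        ext J
        simp [(hP J).nonneg A, (hP J).le_one A]
      show (fun J => P J A) ⁻¹' Set.Icc (0 : ℝ) 1 ∈ (F : Filter ℕ)
      rw [h3]
      exact univ_mem
    obtain ⟨x, hx, hx2⟩ := isCompact_Icc.ultrafilter_le_nhds _ h2
    exact ⟨x, hx, hx2⟩
  choose m hm1 hm2 using h1
  refine ⟨m, ⟨fun A => (hm1 A).1, fun A => (hm1 A).2, fun A B hAB => ?_⟩, hm2⟩
  have h2 := (hm2 A).add (hm2 B)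
  have h3 : (fun J => P J A + P J B) = fun J => P J (A ∪ B) := by
    funext J
    exact ((hP J).add A B hAB).symm
  rw [h3] at h2
  exact tendsto_nhds_unique (hm2 (A ∪ B)) h2

theorem FA.inter {α : Type*} {m : Set α → ℝ} (h : FA m) (F : Set α) : FA (fun A => m (A ∩ F)) := by
  refine ⟨fun A => h.nonneg _, fun A => h.le_one _, fun A B hAB => ?_⟩
  show m ((A ∪ B) ∩ F) = m (A ∩ F) + m (B ∩ F)
  rw [Set.union_inter_distrib_right]
  exact h.add _ _ (hAB.mono Set.inter_subset_left Set.inter_subset_left)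

/-- Bergelson's argument -/
theorem hit {α : Type*} {m lam : Set α → ℝ} (hm : FA m) (hl : FA lam) (F : ℕ → Set α)
    (U : Ultrafilter ℕ) (hU : (U : Filter ℕ) ≤ atTop)
    (ht : ∀ A, Tendsto (fun l => m (A ∩ F l)) U (𝓝 (lam A))) (A : Set α) (hA : 0 < lam A) (j0 : ℕ) :
    ∃ j, j0 ≤ j ∧ 0 < lam (A ∩ F j) := by
  by_contra hcon
  push Not at hcon
  have hz : ∀ j, j0 ≤ j → lam (A ∩ F j) = 0 := fun j hj => le_antisymm (hcon j hj) (hl.nonneg _)
  have key : ∀ k : ℕ, ∃ S : Set α, lam (A ∩ S) = 0 ∧ k * (lam A / 2) ≤ m (A ∩ S) := by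
    intro k
    induction k with
    | zero => exact ⟨∅, by rw [Set.inter_empty]; exact hl.empty, by simpa using hm.nonneg _⟩
    | succ k ih =>
      obtain ⟨S, hS1, hS2⟩ := ih
      have e1 : ∀ᶠ l in (U : Filter ℕ), 3 / 4 * lam A < m (A ∩ F l) :=
        (ht A).eventually_const_lt (by linarith)
      have e2 : ∀ᶠ l in (U : Filter ℕ), m ((A ∩ S) ∩ F l) < 1 / 4 * lam A :=
        (ht (A ∩ S)).eventually_lt_const (by rw [hS1]; linarith)
      have e3 : ∀ᶠ l in (U : Filter ℕ), j0 ≤ l := hU (eventually_ge_atTop j0)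
      obtain ⟨l, ⟨h1, h2⟩, h3⟩ := ((e1.and e2).and e3).exists
      refine ⟨S ∪ F l, ?_, ?_⟩
      · apply le_antisymm _ (hl.nonneg _)
        rw [Set.inter_union_distrib_left]
        have := hl.union_le (A ∩ S) (A ∩ F l)
        rw [hS1, hz l h3] at this
        linarith
      · have h4 := hm.split (A ∩ (S ∪ F l)) S
        have h5 : A ∩ (S ∪ F l) ∩ S = A ∩ S := by
          ext x
          simp only [Set.mem_inter_iff, Set.mem_union]
          tauto
        have h6 : (A ∩ (S ∪ F l)) \ S = (A ∩ F l) \ S := by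
          ext x
          simp only [Set.mem_inter_iff, Set.mem_union, Set.mem_sdiff]
          tauto
        have h7 := hm.split (A ∩ F l) S
        have h8 : A ∩ F l ∩ S = A ∩ S ∩ F l := by
          ext x
          simp only [Set.mem_inter_iff]
          tauto
        rw [h5, h6] at h4
        rw [h8] at h7
        push_cast
        linarith
  obtain ⟨k, hk⟩ := exists_nat_gt (1 / (lam A / 2))
  obtain ⟨S, _, hS⟩ := key k
  have h1 := hm.le_one (A ∩ S)
  rw [div_lt_iff₀ (by linarith)] at hk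
  linarith

/-- the patterns whose part in `V` is `τ` -/
def node (V τ : Finset ℕ) : Set (Finset ℕ) := {T | T ∩ V = τ}

/-- the states of the construction of a path -/
structure Pt (V : ℕ → Finset ℕ) (lam : Set (Finset ℕ) → ℝ) where
  i : ℕ
  τ : Finset ℕ
  sub : τ ⊆ V i
  pos : 0 < lam (node (V i) τ)

theorem path (V : ℕ → Finset ℕ) (hV : Monotone V) (hV0 : V 0 = ∅) (G : ℕ → Finset ℕ → Prop)
    (P : ℕ → Set (Finset ℕ) → ℝ) (hP : ∀ J, FA (P J))
    (hsupp : ∀ i J, i ≤ J → P J {T | ¬ G i (T ∩ V i)} = 0) (c : ℝ) (hc : 0 < c)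
    (hhit : ∀ i J, i < J → c ≤ P J {T | (T ∩ (V (i + 1) \ V i)).Nonempty}) :
    ∃ x : Set ℕ, x ⊆ (⋃ i, (V i : Set ℕ)) ∧ (∀ i (τ : Finset ℕ), (∀ t, t ∈ τ ↔ t ∈ V i ∧ t ∈ x) → G i τ) ∧
      ∀ i0, ∃ i, i0 ≤ i ∧ ∃ t ∈ x, t ∈ V (i + 1) \ V i := by
  classical
  obtain ⟨m, hm, hmt⟩ := exists_lim P hP (hyperfilter ℕ)
  have hle : ((hyperfilter ℕ : Ultrafilter ℕ) : Filter ℕ) ≤ atTop := Nat.hyperfilter_le_atTop
  set F : ℕ → Set (Finset ℕ) := fun j => {T | (T ∩ (V (j + 1) \ V j)).Nonempty} with hF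
  obtain ⟨lam, hl, hlt⟩ := exists_lim (fun l A => m (A ∩ F l)) (fun l => hm.inter (F l)) (hyperfilter ℕ)
  have hm0 : ∀ i, m {T | ¬ G i (T ∩ V i)} = 0 := by
    intro i
    refine tendsto_nhds_unique (hmt _) ?_
    refine tendsto_const_nhds.congr' ?_
    filter_upwards [hle (eventually_ge_atTop i)] with J hJ
    exact (hsupp i J hJ).symm
  have hmF : ∀ j, c ≤ m (F j) := by
    intro j
    refine ge_of_tendsto (hmt _) ?_
    filter_upwards [hle (eventually_gt_atTop j)] with J hJ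
    exact hhit j J hJ
  have hlm : ∀ A, lam A ≤ m A := by
    intro A
    refine le_of_tendsto (hlt A) ?_
    filter_upwards with l
    exact hm.mono Set.inter_subset_left
  have hroot : 0 < lam (node (V 0) ∅) := by
    have h1 : node (V 0) ∅ = Set.univ := by
      ext T
      simp [node, hV0]
    rw [h1]
    refine hc.trans_le (ge_of_tendsto (hlt _) ?_)
    filter_upwards with l
    rw [Set.univ_inter]
    exact hmF l
  have hstep : ∀ p : Pt V lam, ∃ q : Pt V lam, p.i < q.i ∧ q.τ ∩ V p.i = p.τ ∧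
      ∃ j, p.i ≤ j ∧ ∃ t ∈ q.τ, t ∈ V (j + 1) \ V j := by
    intro p
    obtain ⟨j, hj, hpos⟩ := hit hm hl F (hyperfilter ℕ) hle hlt (node (V p.i) p.τ) p.pos p.i
    set S := (V (j + 1)).powerset.filter (fun τ' => τ' ∩ V p.i = p.τ ∧ (τ' ∩ (V (j + 1) \ V j)).Nonempty)
      with hS
    have hsub : node (V p.i) p.τ ∩ F j ⊆ ⋃ τ' ∈ S, node (V (j + 1)) τ' := by
      rintro T ⟨h1, h2⟩
      have h1' : T ∩ V p.i = p.τ := h1
      have h2' : (T ∩ (V (j + 1) \ V j)).Nonempty := h2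
      rw [Set.mem_iUnion₂]
      refine ⟨T ∩ V (j + 1), ?_, rfl⟩
      rw [hS, mem_filter, mem_powerset]
      refine ⟨inter_subset_right, ?_, ?_⟩
      · rw [inter_assoc, inter_eq_right.2 (hV (by omega : p.i ≤ j + 1)), h1']
      · obtain ⟨t, ht⟩ := h2'
        rw [mem_inter, Finset.mem_sdiff] at ht
        exact ⟨t, by rw [mem_inter, mem_inter, Finset.mem_sdiff]; exact ⟨⟨ht.1, ht.2.1⟩, ht.2⟩⟩
    have hsum : 0 < ∑ τ' ∈ S, lam (node (V (j + 1)) τ') :=
      hpos.trans_le ((hl.mono hsub).trans (hl.biUnion_le S _))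
    obtain ⟨τ', hτ', hτpos⟩ : ∃ τ' ∈ S, 0 < lam (node (V (j + 1)) τ') := by
      by_contra hcon
      push Not at hcon
      exact absurd hsum (not_lt.2 (sum_nonpos hcon))
    rw [hS, mem_filter, mem_powerset] at hτ'
    obtain ⟨h1, h2, t, ht⟩ := hτ'
    rw [mem_inter] at ht
    exact ⟨⟨j + 1, τ', h1, hτpos⟩, by show p.i < j + 1; omega, h2, j, hj, t, ht.1, ht.2⟩
  choose nx hn1 hn2 hn3 using hstep
  let p : ℕ → Pt V lam := fun n => Nat.rec ⟨0, ∅, by simp, hroot⟩ (fun _ q => nx q) n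
  have hps : ∀ n, p (n + 1) = nx (p n) := fun n => rfl
  have hpi : StrictMono (fun n => (p n).i) := by
    apply strictMono_nat_of_lt_succ
    intro n
    rw [hps]
    exact hn1 _
  have hcons : ∀ a b, a ≤ b → (p b).τ ∩ V (p a).i = (p a).τ := by
    intro a b hab
    induction b, hab using Nat.le_induction with
    | base => exact inter_eq_left.2 (p a).sub
    | succ b hab ih =>
      rw [hps]
      have h1 : V (p a).i ⊆ V (p b).i := hV (hpi.monotone hab)
      rw [← ih, ← hn2 (p b), inter_assoc, inter_eq_right.2 h1]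
  refine ⟨{t | ∃ n, t ∈ (p n).τ}, ?_, ?_, ?_⟩
  · rintro t ⟨n, hn⟩
    rw [Set.mem_iUnion]
    exact ⟨(p n).i, (p n).sub hn⟩
  · intro i τ hτ
    have hin : i ≤ (p i).i := hpi.le_apply
    have h1 : τ = (p i).τ ∩ V i := by
      ext t
      rw [hτ, mem_inter]
      constructor
      · rintro ⟨h2, n, hn⟩
        refine ⟨?_, h2⟩
        rcases Nat.le_total n i with h3 | h3
        · rw [← hcons n i h3] at hn
          exact (mem_inter.1 hn).1
        · rw [← hcons i n h3, mem_inter]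
          exact ⟨hn, hV hin h2⟩
      · rintro ⟨h2, h3⟩
        exact ⟨h3, i, h2⟩
    rw [h1]
    by_contra hcon
    have h2 : node (V (p i).i) (p i).τ ⊆ {T | ¬ G i (T ∩ V i)} := by
      intro T hT
      have h3 : T ∩ V (p i).i = (p i).τ := hT
      show ¬ G i (T ∩ V i)
      rw [← h3, inter_assoc, inter_eq_right.2 (hV hin)] at hcon
      exact hcon
    have h3 := hlm (node (V (p i).i) (p i).τ)
    have h4 := hm.mono h2
    rw [hm0] at h4
    have h5 := (p i).pos
    linarith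
  · intro i0
    obtain ⟨j, hj, t, ht, htV⟩ := hn3 (p i0)
    exact ⟨j, (hpi.le_apply (x := i0)).trans hj, t, ⟨i0 + 1, by rw [hps]; exact ht⟩, htV⟩

end Pool.Agent.K1H86.TZ
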