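import Mathlib
import Pool.Agent.Y876.HS.Sq

/-! Products of sieve weights over blocks of forms (helper86). -/

set_option autoImplicit false

namespace Pool.Agent.K1H86.TZ

open Finset
open Pool.Agent.H95R2.BG
open Pool.Agent.Y876.HS (El El_sum El_le GJ GJ_nonneg Fw_le g_nonneg box_rec Q0)
open Pool.Agent.H358R5 (g D A B Fw)

section prod

variable {K J : ℕ} {k : Fin J → ℕ} (e : Fin K ≃ (Σ j : Fin J, Fin (k j + 1)))

/-- the part of `c` in a block -/
def blk (c : Fin K → ℕ) (j : Fin J) : Fin (k j + 1) → ℕ := fun i => c (e.symm ⟨j, i⟩)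

/-- the product of the weights of the blocks -/
noncomputable def Fp (G : ∀ j : Fin J, (Fin (k j + 1) → ℕ) → ℝ) (c : Fin K → ℕ) : ℝ := ∏ j, G j (blk e c j)

theorem sum_Fp (M : ℕ) (G : ∀ j : Fin J, (Fin (k j + 1) → ℕ) → ℝ) :
    ∑ c ∈ Box K M, Fp e G c = ∏ j, ∑ c ∈ Box (k j + 1) M, G j c := by
  classical
  rw [Finset.prod_univ_sum]
  refine Finset.sum_nbij' (fun c j => blk e c j) (fun x l => x (e l).1 (e l).2) ?_ ?_ ?_ ?_ ?_
  · intro c hc
    rw [Fintype.mem_piFinset]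
    intro j
    unfold Box at hc ⊢
    rw [Fintype.mem_piFinset] at hc ⊢
    intro i
    exact hc _
  · intro x hx
    rw [Fintype.mem_piFinset] at hx
    unfold Box
    rw [Fintype.mem_piFinset]
    intro l
    have h1 := hx (e l).1
    unfold Box at h1
    rw [Fintype.mem_piFinset] at h1
    exact h1 _
  · intro c _
    funext l
    show c (e.symm ⟨(e l).1, (e l).2⟩) = c l
    rw [Sigma.eta, e.symm_apply_apply]
  · intro x _
    funext j i
    have h : e (e.symm ⟨j, i⟩) = ⟨j, i⟩ := e.apply_symm_apply _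
    show (fun s : (Σ j : Fin J, Fin (k j + 1)) => x s.1 s.2) (e (e.symm ⟨j, i⟩)) = x j i
    rw [h]
  · intro c _
    rfl

theorem prod_blk (w : Fin K → ℕ → ℝ) (c : Fin K → ℕ) :
    ∏ l, w l (c l) = ∏ j, ∏ i, w (e.symm ⟨j, i⟩) (blk e c j i) := by
  rw [← Fintype.prod_sigma']
  refine Fintype.prod_equiv e _ _ fun l => ?_
  show w l (c l) = w (e.symm ⟨(e l).1, (e l).2⟩) (c (e.symm ⟨(e l).1, (e l).2⟩))
  rw [Sigma.eta, e.symm_apply_apply]

theorem rad_blk (c : Fin K → ℕ) : rad c = ∑ j, rad (blk e c j) := by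
  unfold rad
  rw [← Fintype.sum_sigma']
  refine Fintype.sum_equiv e _ _ fun l => ?_
  show c l + 1 = c (e.symm ⟨(e l).1, (e l).2⟩) + 1
  rw [Sigma.eta, e.symm_apply_apply]

theorem blk_update (c : Fin K → ℕ) (j0 : Fin J) (i0 : Fin (k j0 + 1)) (t : ℕ) :
    blk e (Function.update c (e.symm ⟨j0, i0⟩) t) =
      Function.update (blk e c) j0 (Function.update (blk e c j0) i0 t) := by
  funext j
  by_cases hj : j = j0
  · subst hj
    rw [Function.update_self]
    funext i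
    by_cases hi : i = i0
    · subst hi
      rw [Function.update_self]
      show Function.update c (e.symm ⟨j, i⟩) t (e.symm ⟨j, i⟩) = t
      rw [Function.update_self]
    · rw [Function.update_of_ne hi]
      show Function.update c (e.symm ⟨j, i0⟩) t (e.symm ⟨j, i⟩) = c (e.symm ⟨j, i⟩)
      apply Function.update_of_ne
      intro h
      have h1 := e.symm.injective h
      rw [Sigma.mk.injEq] at h1
      exact hi (eq_of_heq h1.2)
  · rw [Function.update_of_ne hj]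
    funext i
    show Function.update c (e.symm ⟨j0, i0⟩) t (e.symm ⟨j, i⟩) = c (e.symm ⟨j, i⟩)
    apply Function.update_of_ne
    intro h
    have h1 := e.symm.injective h
    rw [Sigma.mk.injEq] at h1
    exact hj h1.1

theorem Fp_split (G : ∀ j : Fin J, (Fin (k j + 1) → ℕ) → ℝ) (c : Fin K → ℕ) (j0 : Fin J) :
    Fp e G c = G j0 (blk e c j0) * ∏ j ∈ univ.erase j0, G j (blk e c j) := by
  unfold Fp
  rw [mul_prod_erase univ (fun j => G j (blk e c j)) (mem_univ j0)]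

theorem sum_Fp_update (M : ℕ) (G : ∀ j : Fin J, (Fin (k j + 1) → ℕ) → ℝ) (j0 : Fin J)
    (H : (Fin (k j0 + 1) → ℕ) → ℝ) :
    ∑ c ∈ Box K M, Fp e (Function.update G j0 H) c =
      (∑ c ∈ Box (k j0 + 1) M, H c) * ∏ j ∈ univ.erase j0, ∑ c ∈ Box (k j + 1) M, G j c := by
  rw [sum_Fp, ← mul_prod_erase univ _ (mem_univ j0), Function.update_self]
  congr 1
  refine prod_congr rfl fun j hj => ?_
  rw [Function.update_of_ne (ne_of_mem_erase hj)]

theorem Fp_sq (G : ∀ j : Fin J, (Fin (k j + 1) → ℕ) → ℝ) (c : Fin K → ℕ) :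
    Fp e G c ^ 2 = Fp e (fun j c => G j c ^ 2) c := by
  unfold Fp
  rw [prod_pow]

theorem Fp_update_sq (G : ∀ j : Fin J, (Fin (k j + 1) → ℕ) → ℝ) (j0 : Fin J)
    (H : (Fin (k j0 + 1) → ℕ) → ℝ) (c : Fin K → ℕ) :
    Fp e (Function.update G j0 H) c ^ 2 =
      Fp e (Function.update (fun j c => G j c ^ 2) j0 (fun c => H c ^ 2)) c := by
  rw [Fp_sq]
  congr 1
  funext j c
  by_cases hj : j = j0
  · subst hj
    rw [Function.update_self, Function.update_self]
  · rw [Function.update_of_ne hj, Function.update_of_ne hj]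

/-- summation over one coordinate -/
theorem Fp_marg (M : ℕ) (G : ∀ j : Fin J, (Fin (k j + 1) → ℕ) → ℝ) (j0 : Fin J) (i0 : Fin (k j0 + 1))
    (c : Fin K → ℕ) : ∑ t ∈ range M, Fp e G (Function.update c (e.symm ⟨j0, i0⟩) t) =
      Fp e (Function.update G j0 (fun c => ∑ t ∈ range M, G j0 (Function.update c i0 t))) c := by
  rw [Fp_split e _ c j0, Function.update_self, sum_mul]
  refine sum_congr rfl fun t _ => ?_
  rw [Fp_split e G _ j0, blk_update, Function.update_self]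
  congr 1
  refine prod_congr rfl fun j hj => ?_
  rw [Function.update_of_ne (ne_of_mem_erase hj), Function.update_of_ne (ne_of_mem_erase hj)]

end prod

theorem UU_sum {K0 : ℕ} (M : ℕ) (F : (Fin (K0 + 1) → ℕ) → ℝ) (i : Fin (K0 + 1)) :
    (M : ℝ) * ∑ c ∈ Box K0 M, UU M F i c ^ 2 =
      ∑ c ∈ Box (K0 + 1) M, (∑ t ∈ range M, F (Function.update c i t)) ^ 2 := by
  rw [C1_sum_box i, mul_sum]
  refine sum_congr rfl fun c _ => ?_
  have h1 : ∀ t, ∑ t' ∈ range M, F (Function.update (Fin.insertNth (α := fun _ => ℕ) i t c) i t') =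
      UU M F i c := by
    intro t
    unfold UU
    refine sum_congr rfl fun t' _ => ?_
    congr 1
    exact Fin.update_insertNth (α := fun _ => ℕ) i t t' c
  simp_rw [h1]
  rw [sum_const, card_range, nsmul_eq_mul]

theorem UU_Fp {K0 J : ℕ} {k : Fin J → ℕ} (e : Fin (K0 + 1) ≃ (Σ j : Fin J, Fin (k j + 1))) (M : ℕ)
    (hM : 0 < M) (G : ∀ j : Fin J, (Fin (k j + 1) → ℕ) → ℝ) (j0 : Fin J) (i0 : Fin (k j0 + 1)) :
    ∑ c ∈ Box K0 M, UU M (Fp e G) (e.symm ⟨j0, i0⟩) c ^ 2 =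
      (∑ c ∈ Box (k j0) M, UU M (G j0) i0 c ^ 2) *
        ∏ j ∈ univ.erase j0, ∑ c ∈ Box (k j + 1) M, G j c ^ 2 := by
  have hM' : (M : ℝ) ≠ 0 := by exact_mod_cast hM.ne'
  apply mul_left_cancel₀ hM'
  rw [UU_sum, ← mul_assoc, UU_sum]
  simp_rw [Fp_marg e M G j0 i0]
  simp_rw [Fp_update_sq]
  rw [sum_Fp_update]

/-- the collapsed weights have the same values -/
theorem pt_Fp {K J : ℕ} {k : Fin J → ℕ} (e : Fin K ≃ (Σ j : Fin J, Fin (k j + 1))) (M : ℕ)
    (G : ∀ j : Fin J, (Fin (k j + 1) → ℕ) → ℝ) (j0 : Fin J) (u : ℕ → ℝ) (hu : ∑ t ∈ range M, u t = 1)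
    (L : List (Fin (k j0 + 1))) (w : Fin K → ℕ → ℝ) (hw : ∀ i ∈ L, ∀ c, w (e.symm ⟨j0, i⟩) c = 1) :
    ∑ c ∈ Box K M, Fp e (Function.update G j0 (El M u (G j0) L)) c * ∏ l, w l (c l) =
      ∑ c ∈ Box K M, Fp e G c * ∏ l, w l (c l) := by
  have h1 : ∀ (G' : ∀ j : Fin J, (Fin (k j + 1) → ℕ) → ℝ) (c : Fin K → ℕ), Fp e G' c * ∏ l, w l (c l) =
      Fp e (fun j c' => G' j c' * ∏ i, w (e.symm ⟨j, i⟩) (c' i)) c := by
    intro G' c
    rw [prod_blk e w c]
    unfold Fp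
    rw [← prod_mul_distrib]
  simp_rw [h1]
  rw [sum_Fp, sum_Fp]
  refine prod_congr rfl fun j _ => ?_
  by_cases hj : j = j0
  · subst hj
    rw [Function.update_self]
    exact El_sum u hu (G j) (fun i => w (e.symm ⟨j, i⟩)) L hw
  · rw [Function.update_of_ne hj]

end Pool.Agent.K1H86.TZ
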