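import Mathlib
import Pool.Agent.K1H86.TZ.Prod
import Pool.Agent.Y876.HS.Core

/-! The sieve weight of one block (helper86). -/

set_option autoImplicit false

namespace Pool.Agent.K1H86.TZ

open Finset
open Pool.Agent.H95R2.BG
open Pool.Agent.Y876.HS (El El_sum El_le GJ GJ_nonneg Fw_le g_nonneg box_rec Q0 D_nonneg ratio3)
open Pool.Agent.H358R5 (g D A B Fw bm)

theorem Fw_sq {K : ℕ} (L N : ℕ) (c : Fin K → ℕ) : Fw L N c ^ 2 =
    (∏ j, g L (c j + 1) ^ 2) * (if ∑ j, (c j + 1) ≤ N then (1 : ℝ) else 0) := by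
  unfold Fw
  split_ifs
  · rw [mul_one, prod_pow]
  · simp

theorem sq_Fw (L N M K : ℕ) (h : N ≤ M) : ∑ c ∈ Box K M, Fw L N c ^ 2 = D L K N := by
  simp_rw [Fw_sq]
  unfold Box
  rw [Pool.Agent.H358R5.BOX_proof L K M N (fun s => if s ≤ N then (1 : ℝ) else 0) h
    (fun s hs => if_neg (by omega))]
  unfold D
  refine sum_congr rfl fun s hs => ?_
  rw [if_pos (by have := mem_range.1 hs; omega), mul_one]

theorem Q0_eq' (L N M n : ℕ) (h : N ≤ M) : Q0 L M n (fun s => if s ≤ N then 1 else 0) = D L n N := by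
  have h1 := box_rec L M (fun _ => 0) n (fun _ => false) (fun s => if s ≤ N then 1 else 0)
  have h2 := Pool.Agent.H358R5.BOX_proof L n M N (fun s => if s ≤ N then 1 else 0) h
    (fun s hs => if_neg (by omega))
  simp only [Bool.false_eq_true, if_false, filter_false, card_empty, pow_zero, one_mul, Nat.sub_zero] at h1
  rw [← h1]
  unfold Box
  rw [h2]
  unfold D
  refine sum_congr rfl fun s hs => ?_
  rw [if_pos (by have := mem_range.1 hs; omega), mul_one]

theorem sum_GJ' {K : ℕ} (L N M : ℕ) (h : N ≤ M) (b : ℝ) (u : ℕ → ℝ) (J : Finset (Fin K)) :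
    ∑ c ∈ Box K M, GJ L N b u J c ^ 2 = (∑ t ∈ range M, (b * u t) ^ 2) ^ J.card * D L (K - J.card) N := by
  have h1 := box_rec L M (fun t => (b * u t) ^ 2) K (fun j => decide (j ∈ J)) (fun s => if s ≤ N then 1 else 0)
  rw [Q0_eq' L N M _ h] at h1
  have h2 : (univ.filter fun j => decide (j ∈ J) = true) = J := by ext; simp
  rw [h2] at h1
  simp only [decide_eq_true_eq] at h1
  rw [← h1]
  refine sum_congr rfl fun c _ => ?_
  unfold GJ
  split_ifs with h
  · rw [mul_one, ← prod_pow]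
    refine prod_congr rfl fun j _ => ?_
    split_ifs <;> rfl
  · simp

theorem UU_Fw (L N M K0 : ℕ) (h : N ≤ M) (i : Fin (K0 + 1)) :
    ∑ c ∈ Box K0 M, UU M (Fw L N) i c ^ 2 = ∑ s ∈ range (N + 1), A L K0 s * B L (N - s) ^ 2 := by
  have h1 : ∀ c : Fin K0 → ℕ, UU M (Fw L N) i c = (∏ j, g L (c j + 1)) * B L (N - ∑ j, (c j + 1)) := by
    intro c
    obtain ⟨s, hs⟩ : ∃ s : ℕ, s = ∑ j, (c j + 1) := ⟨_, rfl⟩
    obtain ⟨P, hP⟩ : ∃ P : ℝ, P = ∏ j, g L (c j + 1) := ⟨_, rfl⟩
    rw [← hs, ← hP]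
    have h2 : ∀ t, Fw L N (Fin.insertNth (α := fun _ => ℕ) i t c) =
        if t + 1 + s ≤ N then g L (t + 1) * P else 0 := by
      intro t
      unfold Fw
      rw [Fin.sum_univ_succAbove _ i, Fin.prod_univ_succAbove _ i]
      simp only [Fin.insertNth_apply_same, Fin.insertNth_apply_succAbove]
      rw [hs, hP]
    unfold UU B
    simp_rw [h2]
    rw [← sum_filter, mul_sum]
    have h3 : (range M).filter (fun t => t + 1 + s ≤ N) = range (N - s) := by
      ext t
      simp only [mem_filter, mem_range]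
      omega
    rw [h3]
    refine sum_congr rfl fun t _ => ?_
    ring
  have h2 : ∀ c : Fin K0 → ℕ, UU M (Fw L N) i c ^ 2 =
      (∏ j, g L (c j + 1) ^ 2) * (fun s => B L (N - s) ^ 2) (∑ j, (c j + 1)) := by
    intro c
    rw [h1, mul_pow, prod_pow]
  simp_rw [h2]
  unfold Box
  exact Pool.Agent.H358R5.BOX_proof L K0 M N (fun s => B L (N - s) ^ 2) h (fun s hs => by
    rw [Nat.sub_eq_zero_of_le hs.le]
    simp [B])

/-- the profile -/
noncomputable def prof (l t : ℕ) : ℝ := if t < l then 1 / (l : ℝ) else 0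

theorem prof_nonneg (l t : ℕ) : 0 ≤ prof l t := by
  unfold prof
  split_ifs
  · positivity
  · exact le_rfl

theorem prof_sum (l M : ℕ) (hl : 1 ≤ l) (h : l ≤ M) : ∑ t ∈ range M, prof l t = 1 := by
  have hl0 : (0 : ℝ) < l := by exact_mod_cast hl
  unfold prof
  rw [← sum_filter]
  have hfil : (range M).filter (fun t => t < l) = range l := by
    ext t
    simp only [mem_filter, mem_range]
    omega
  rw [hfil, sum_const, card_range, nsmul_eq_mul]
  field_simp

theorem prof_sq (l M : ℕ) (hl : 1 ≤ l) (h : l ≤ M) (b : ℝ) :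
    ∑ t ∈ range M, (b * prof l t) ^ 2 = b ^ 2 / l := by
  have hl0 : (0 : ℝ) < l := by exact_mod_cast hl
  have h1 : ∀ t, (b * prof l t) ^ 2 = if t < l then b ^ 2 / (l : ℝ) ^ 2 else 0 := by
    intro t
    unfold prof
    split_ifs
    · field_simp
    · ring
  simp_rw [h1]
  rw [← sum_filter]
  have hfil : (range M).filter (fun t => t < l) = range l := by
    ext t
    simp only [mem_filter, mem_range]
    omega
  rw [hfil, sum_const, card_range, nsmul_eq_mul]
  field_simp

/-- the collapsed weight of one block -/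
theorem El_bd {K : ℕ} (L N M l : ℕ) (b : ℝ) (hb : ∑ t ∈ range M, g L (t + 1) ≤ b) (S : Finset (Fin K))
    (c : Fin K → ℕ) : 0 ≤ El M (prof l) (Fw L N) S.toList c ∧
      El M (prof l) (Fw L N) S.toList c ≤ GJ L N b (prof l) S c := by
  have h := El_le L N M b hb (prof l) (prof_nonneg l) (Fw L N) (fun c => by
      unfold Pool.Agent.H358R5.Fw
      split_ifs
      · exact prod_nonneg fun _ _ => g_nonneg _ _
      · exact le_rfl)
    (fun c => (Fw_le L N b (prof l) c).le) S.toList S.nodup_toList c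
  rw [Finset.toList_toFinset] at h
  exact h

/-- its support -/
theorem El_supp {K : ℕ} (L N M l : ℕ) (b : ℝ) (hb : ∑ t ∈ range M, g L (t + 1) ≤ b) (S : Finset (Fin K))
    (c : Fin K → ℕ) (hc : El M (prof l) (Fw L N) S.toList c ≠ 0) : rad c ≤ N + S.card * l := by
  have h1 := El_bd L N M l b hb S c
  have h2 : GJ L N b (prof l) S c ≠ 0 := by
    intro h0
    rw [h0] at h1
    exact hc (le_antisymm h1.2 h1.1)
  unfold GJ at h2
  have h3 : ∑ j, (if j ∈ S then 0 else c j + 1) ≤ N := by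
    by_contra hcon
    rw [if_neg hcon] at h2
    exact h2 rfl
  rw [if_pos h3] at h2
  have h4 : ∀ j ∈ S, c j + 1 ≤ l := by
    intro j hj
    have h5 := (Finset.prod_ne_zero_iff.1 h2) j (mem_univ _)
    rw [if_pos hj] at h5
    have h6 : prof l (c j) ≠ 0 := right_ne_zero_of_mul h5
    unfold prof at h6
    by_contra hcon
    rw [if_neg (by omega)] at h6
    exact h6 rfl
  have h5 : rad c = ∑ j, (if j ∈ S then 0 else c j + 1) + ∑ j ∈ S, (c j + 1) := by
    unfold rad
    have h6 : ∑ j ∈ S, (c j + 1) = ∑ j, if j ∈ S then c j + 1 else 0 := by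
      rw [← sum_filter]
      congr 1
      ext j
      simp
    rw [h6, ← sum_add_distrib]
    refine sum_congr rfl fun j _ => ?_
    split_ifs <;> omega
  have h6 : ∑ j ∈ S, (c j + 1) ≤ S.card * l := by
    have := sum_le_card_nsmul S (fun j => c j + 1) l h4
    rwa [smul_eq_mul] at this
  omega

/-- its square sum -/
theorem El_sq {K : ℕ} (L N M l : ℕ) (hNM : N ≤ M) (hl : 1 ≤ l) (hlM : l ≤ M) (b : ℝ)
    (hb : ∑ t ∈ range M, g L (t + 1) ≤ b) (hL : 100 ≤ L) (hK : 1 ≤ K) (hN : 8 * (L * K) ≤ N)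
    (S : Finset (Fin K)) :
    ∑ c ∈ Box K M, El M (prof l) (Fw L N) S.toList c ^ 2 ≤
      (b ^ 2 / l * (5 / 2 * L)) ^ S.card * D L K N := by
  have h1 : ∑ c ∈ Box K M, El M (prof l) (Fw L N) S.toList c ^ 2 ≤
      ∑ c ∈ Box K M, GJ L N b (prof l) S c ^ 2 :=
    sum_le_sum fun c _ => pow_le_pow_left₀ (El_bd L N M l b hb S c).1 (El_bd L N M l b hb S c).2 2
  rw [sum_GJ' L N M hNM, prof_sq l M hl hlM] at h1
  have hSK : S.card ≤ K := by
    have := card_le_univ S
    rwa [Fintype.card_fin] at this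
  have h2 := ratio3 L K N S.card hL hK hSK hN
  calc _ ≤ (b ^ 2 / l) ^ S.card * D L (K - S.card) N := h1
    _ ≤ (b ^ 2 / l) ^ S.card * ((5 / 2 * L) ^ S.card * D L K N) :=
      mul_le_mul_of_nonneg_left h2 (by positivity)
    _ = _ := by rw [mul_pow]; ring

end Pool.Agent.K1H86.TZ
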