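import Mathlib
import Pool.Agent.K1H86.TZ.One

/-! The parameters of the blocks (helper86). -/

set_option autoImplicit false

namespace Pool.Agent.K1H86.TZ

open Finset
open Pool.Agent.H95R2.BG
open Pool.Agent.Y876.HS (El bm_le sum_g_le)
open Pool.Agent.H358R5 (g D A B Fw bm)

theorem exists_K (m : ℕ) (hm : 2 ≤ m) :
    ∃ k : ℕ, 4 * (m : ℝ) + 29 / 50 ≤ Real.log ((k : ℝ) + 1) ∧ Real.log ((k : ℝ) + 1) ≤ 4 * m + 1 := by
  have hm' : (2 : ℝ) ≤ m := by exact_mod_cast hm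
  set K := ⌈Real.exp (4 * (m : ℝ) + 29 / 50)⌉₊ with hK
  have h1 : Real.exp (4 * (m : ℝ) + 29 / 50) ≤ K := Nat.le_ceil _
  have h2 : (K : ℝ) < Real.exp (4 * (m : ℝ) + 29 / 50) + 1 := Nat.ceil_lt_add_one (Real.exp_pos _).le
  have hK0 : 1 ≤ K := by
    have : 0 < K := by
      have : (0 : ℝ) < K := (Real.exp_pos _).trans_le h1
      exact_mod_cast this
    omega
  have h3 : ((K - 1 : ℕ) : ℝ) + 1 = K := by
    rw [Nat.cast_sub hK0]
    push_cast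
    ring
  refine ⟨K - 1, ?_, ?_⟩
  · rw [h3, Real.le_log_iff_exp_le (by linarith [Real.exp_pos (4 * (m : ℝ) + 29 / 50)])]
    exact h1
  · rw [h3, Real.log_le_iff_le_exp (by linarith [Real.exp_pos (4 * (m : ℝ) + 29 / 50)])]
    have h4 : Real.exp (4 * (m : ℝ) + 1) = Real.exp (4 * (m : ℝ) + 29 / 50) * Real.exp (21 / 50) := by
      rw [← Real.exp_add]
      congr 1
      ring
    have h5 : (21 / 50 : ℝ) + 1 ≤ Real.exp (21 / 50) := Real.add_one_le_exp _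
    have h6 : (4 * (m : ℝ) + 29 / 50) + 1 ≤ Real.exp (4 * (m : ℝ) + 29 / 50) := Real.add_one_le_exp _
    rw [h4]
    nlinarith

/-- the parameter `m` of a block -/
def mm (j : ℕ) : ℕ := 2 ^ (j + 3)

theorem mm_ge (j : ℕ) : 8 ≤ mm j := by
  unfold mm
  rw [pow_add]
  have := Nat.one_le_two_pow (n := j)
  omega

theorem mm_r (j : ℕ) : (mm j : ℝ) = 2 * 2 ^ (j + 2) := by
  unfold mm
  push_cast
  ring

/-- the size of a block, minus one -/
noncomputable def kk (j : ℕ) : ℕ := Classical.choose (exists_K (mm j) (by have := mm_ge j; omega))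

theorem kk1 (j : ℕ) : 4 * (mm j : ℝ) + 29 / 50 ≤ Real.log ((kk j : ℝ) + 1) :=
  (Classical.choose_spec (exists_K (mm j) (by have := mm_ge j; omega))).1

theorem kk2 (j : ℕ) : Real.log ((kk j : ℝ) + 1) ≤ 4 * mm j + 1 :=
  (Classical.choose_spec (exists_K (mm j) (by have := mm_ge j; omega))).2

theorem bm_ge (m : ℕ) : 4 * (m : ℝ) ≤ bm m := by
  unfold bm
  have : 0 ≤ 32 * (m : ℝ) ^ 2 * Real.exp (-(4 * m)) := by positivity
  linarith

/-- the parameters of a block -/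
structure BP (N1 j L N : ℕ) : Prop where
  hL : 100 * (kk j + 1) ≤ L
  h1 : bm (mm j) * ((L : ℝ) * ((kk j : ℝ) + 1)) ≤ N
  h2 : (N : ℝ) ≤ bm (mm j) * ((L : ℝ) * ((kk j : ℝ) + 1)) + 1
  h3 : 2 ^ (j + 1) * N ≤ N1
  h4 : N1 ≤ 2 ^ (j + 2) * N

theorem par_one (m K : ℕ) (hm : 2 ≤ m) (hK : 1 ≤ K) : ∃ X0 : ℝ, ∀ Y : ℝ, X0 ≤ Y → ∃ L N : ℕ,
    100 * K ≤ L ∧ bm m * ((L : ℝ) * K) ≤ N ∧ (N : ℝ) ≤ bm m * ((L : ℝ) * K) + 1 ∧ (N : ℝ) ≤ Y ∧
    Y ≤ 2 * N := by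
  have hm' : (2 : ℝ) ≤ m := by exact_mod_cast hm
  have hK' : (1 : ℝ) ≤ K := by exact_mod_cast hK
  have hb := bm_ge m
  obtain ⟨c, hc⟩ : ∃ c : ℝ, c = bm m * K := ⟨_, rfl⟩
  have hc8 : 8 ≤ c := by rw [hc]; nlinarith
  refine ⟨c * (100 * K + 2) + 2, fun Y hY => ?_⟩
  obtain ⟨L, hL⟩ : ∃ L : ℕ, L = ⌊(Y - 1) / c⌋₊ := ⟨_, rfl⟩
  have hY1 : 100 * (K : ℝ) + 2 ≤ (Y - 1) / c := by
    rw [le_div_iff₀ (by linarith)]
    nlinarith
  have hL1 : (L : ℝ) ≤ (Y - 1) / c := by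
    rw [hL]
    exact Nat.floor_le (by linarith)
  have hL2 : (Y - 1) / c < L + 1 := by
    rw [hL]
    exact Nat.lt_floor_add_one _
  have hLc1 : c * L ≤ Y - 1 := by
    rw [le_div_iff₀ (by linarith)] at hL1
    linarith
  have hLc2 : Y - 1 < c * (L + 1) := by
    rw [div_lt_iff₀ (by linarith)] at hL2
    linarith
  obtain ⟨N, hN⟩ : ∃ N : ℕ, N = ⌈bm m * ((L : ℝ) * K)⌉₊ := ⟨_, rfl⟩
  have e1 : bm m * ((L : ℝ) * K) = c * L := by rw [hc]; ring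
  have hpos : 0 ≤ bm m * ((L : ℝ) * K) := by rw [e1]; positivity
  have hN1 : bm m * ((L : ℝ) * K) ≤ N := by rw [hN]; exact Nat.le_ceil _
  have hN2 : (N : ℝ) ≤ bm m * ((L : ℝ) * K) + 1 := by rw [hN]; exact (Nat.ceil_lt_add_one hpos).le
  refine ⟨L, N, ?_, hN1, hN2, ?_, ?_⟩
  · have h1 : 100 * (K : ℝ) ≤ L := by linarith
    exact_mod_cast h1
  · rw [e1] at hN2
    linarith
  · rw [e1] at hN1
    have h1 : (1 : ℝ) ≤ L := by linarith
    nlinarith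

theorem params (J : ℕ) : ∃ (N1 : ℕ) (L N : ℕ → ℕ), 8 ≤ N1 ∧ ∀ j < J, BP N1 j (L j) (N j) := by
  have h1 : ∀ j : ℕ, ∃ X0 : ℝ, ∀ Y : ℝ, X0 ≤ Y → ∃ L N : ℕ,
    100 * (kk j + 1) ≤ L ∧ bm (mm j) * ((L : ℝ) * ((kk j + 1 : ℕ) : ℝ)) ≤ N ∧
      (N : ℝ) ≤ bm (mm j) * ((L : ℝ) * ((kk j + 1 : ℕ) : ℝ)) + 1 ∧ (N : ℝ) ≤ Y ∧
    Y ≤ 2 * N := fun j => par_one (mm j) (kk j + 1) (by have := mm_ge j; omega) (by omega)
  choose X0 hX0 using h1
  obtain ⟨N1, hN1⟩ := exists_nat_ge (∑ j ∈ range J, 2 ^ (j + 1) * |X0 j| + 8)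
  have hbig : ∀ j < J, X0 j ≤ (N1 : ℝ) / 2 ^ (j + 1) := by
    intro j hj
    rw [le_div_iff₀ (by positivity)]
    have h2 : 2 ^ (j + 1) * |X0 j| ≤ ∑ j ∈ range J, 2 ^ (j + 1) * |X0 j| :=
      single_le_sum (f := fun j => 2 ^ (j + 1) * |X0 j|) (fun j _ => by positivity) (mem_range.2 hj)
    have h3 := le_abs_self (X0 j)
    have h4 : (0 : ℝ) < 2 ^ (j + 1) := by positivity
    nlinarith
  have hch : ∀ j, ∃ L N : ℕ, j < J → BP N1 j L N := by
    intro j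
    by_cases hj : j < J
    · obtain ⟨L, N, a1, a2, a3, a4, a5⟩ := hX0 j _ (hbig j hj)
      refine ⟨L, N, fun _ => ⟨a1, ?_, ?_, ?_, ?_⟩⟩
      · push_cast at a2
        exact a2
      · push_cast at a3
        exact a3
      · rw [le_div_iff₀ (by positivity)] at a4
        have h5 : ((2 ^ (j + 1) * N : ℕ) : ℝ) ≤ (N1 : ℝ) := by push_cast; linarith
        exact_mod_cast h5
      · rw [div_le_iff₀ (by positivity)] at a5
        have h5 : (N1 : ℝ) ≤ ((2 ^ (j + 2) * N : ℕ) : ℝ) := by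
          push_cast
          calc (N1 : ℝ) ≤ 2 * N * 2 ^ (j + 1) := a5
            _ = 2 ^ (j + 2) * N := by ring
        exact_mod_cast h5
    · exact ⟨0, 0, fun h => absurd h hj⟩
  choose L N hLN using hch
  refine ⟨N1, L, N, ?_, hLN⟩
  have h6 : (8 : ℝ) ≤ N1 := by
    have : 0 ≤ ∑ j ∈ range J, 2 ^ (j + 1) * |X0 j| := sum_nonneg fun j _ => by positivity
    linarith
  exact_mod_cast h6

namespace BP

variable {N1 j L N : ℕ}

theorem N_le (h : BP N1 j L N) : N ≤ N1 := by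
  have h1 := h.h3
  have h2 : N ≤ 2 ^ (j + 1) * N := Nat.le_mul_of_pos_left _ (by positivity)
  omega

theorem r1 (h : BP N1 j L N) : (mm j : ℝ) * N ≤ 4 * N1 := by
  have h1 : ((2 ^ (j + 1) * N : ℕ) : ℝ) ≤ N1 := by exact_mod_cast h.h3
  push_cast at h1
  rw [mm_r]
  have h2 : (2 : ℝ) ^ (j + 2) = 2 * 2 ^ (j + 1) := by ring
  rw [h2]
  linarith

theorem r2 (h : BP N1 j L N) : 2 * (N1 : ℝ) ≤ mm j * N := by
  have h1 : (N1 : ℝ) ≤ ((2 ^ (j + 2) * N : ℕ) : ℝ) := by exact_mod_cast h.h4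
  push_cast at h1
  rw [mm_r]
  linarith

/-- lower bound for one form -/
theorem low (h : BP N1 j L N) : 8 * (N1 : ℝ) * D L (kk j + 1) N ≤
    ((kk j : ℝ) + 1) * ∑ s ∈ range (N + 1), A L (kk j) s * B L (N - s) ^ 2 := by
  have hm := mm_ge j
  have key := Pool.Agent.H358R5.ASM_full (mm j) L (kk j) N (by omega) (kk1 j) h.hL h.h1 h.h2
  refine le_trans ?_ key
  have hL1 : 1 ≤ L := by have := h.hL; omega
  have h1 := Pool.Agent.Y876.HS.D_nonneg L (kk j + 1) N hL1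
  have h2 := h.r2
  nlinarith

theorem kkpos (j : ℕ) : (0 : ℝ) < (kk j : ℝ) + 1 := by positivity

/-- `b ≤ 6 m` -/
theorem bb (h : BP N1 j L N) (hN1 : 1 ≤ N1) : ∑ t ∈ range N1, g L (t + 1) ≤ 6 * mm j := by
  have hm : (8 : ℝ) ≤ mm j := by exact_mod_cast mm_ge j
  have hL1 : 1 ≤ L := by have := h.hL; omega
  have hL' : (1 : ℝ) ≤ L := by exact_mod_cast hL1
  have hK : (1 : ℝ) ≤ (kk j : ℝ) + 1 := by linarith [(Nat.cast_nonneg (kk j) : (0 : ℝ) ≤ kk j)]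
  have h1 := sum_g_le L N1 hL1
  have hb := bm_le (mm j) (by have := mm_ge j; omega)
  have hN := h.h2
  have hr := h.r1
  have h4 : (N1 : ℝ) ≤ mm j / 2 * N := by
    have := h.r2
    linarith
  have h5 : (N1 : ℝ) + L ≤ (mm j * ((4 * mm j + 2) * ((kk j : ℝ) + 1))) * L := by
    have h6 : bm (mm j) * ((L : ℝ) * ((kk j : ℝ) + 1)) ≤ (4 * mm j + 1) * ((L : ℝ) * ((kk j : ℝ) + 1)) :=
      mul_le_mul_of_nonneg_right hb (by positivity)
    have h7 : (N : ℝ) ≤ (4 * mm j + 2) * ((L : ℝ) * ((kk j : ℝ) + 1)) := by nlinarith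
    have h8 : (mm j : ℝ) / 2 * N ≤ mm j / 2 * ((4 * mm j + 2) * ((L : ℝ) * ((kk j : ℝ) + 1))) :=
      mul_le_mul_of_nonneg_left h7 (by linarith)
    have h9 : (L : ℝ) ≤ mm j / 2 * ((4 * mm j + 2) * ((L : ℝ) * ((kk j : ℝ) + 1))) := by
      have h10 : (1 : ℝ) ≤ mm j / 2 * ((4 * mm j + 2) * ((kk j : ℝ) + 1)) :=
        one_le_mul_of_one_le_of_one_le (by linarith) (one_le_mul_of_one_le_of_one_le (by linarith) hK)
      nlinarith
    nlinarith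
  have h6 : Real.log ((N1 : ℝ) + L) ≤ (Real.log (mm j) + (Real.log (4 * mm j + 2) + Real.log ((kk j : ℝ) + 1))) +
      Real.log L := by
    rw [← Real.log_mul (by positivity) (by positivity), ← Real.log_mul (by positivity) (by positivity),
      ← Real.log_mul (by positivity) (by positivity)]
    exact Real.log_le_log (by positivity) h5
  have h8 : Real.log 8 ≤ 2.08 := by
    have h9 := Real.log_two_lt_d9
    rw [show (8 : ℝ) = 2 ^ 3 by norm_num, Real.log_pow]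
    push_cast
    linarith
  have hlog : ∀ y : ℝ, 0 < y → Real.log y ≤ y / 8 + 1.08 := by
    intro y hy
    have h9 := Real.log_le_sub_one_of_pos (show 0 < y / 8 by positivity)
    rw [Real.log_div hy.ne' (by norm_num)] at h9
    linarith
  have h9 := hlog (mm j) (by linarith)
  have h10 := hlog (4 * mm j + 2) (by linarith)
  have h11 := kk2 j
  linarith

/-- the ratio of the square sums -/
theorem ratio (h : BP N1 j L N) (l : ℕ) (hl : (N1 : ℝ) / 3 ≤ l) (hN1 : 1 ≤ N1) :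
    (6 * (mm j : ℝ)) ^ 2 / l * (5 / 2 * L) < 300 / ((kk j : ℝ) + 1) := by
  have hm : (8 : ℝ) ≤ mm j := by exact_mod_cast mm_ge j
  have hN1' : (1 : ℝ) ≤ N1 := by exact_mod_cast hN1
  have hl0 : (0 : ℝ) < l := by linarith
  have hK := kkpos j
  have hL1 : 1 ≤ L := by have := h.hL; omega
  have hL' : (1 : ℝ) ≤ L := by exact_mod_cast hL1
  have h1 := h.h1
  have hb := bm_ge (mm j)
  have h2 := h.r1
  have h3 : 4 * (mm j : ℝ) * ((L : ℝ) * ((kk j : ℝ) + 1)) ≤ N :=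
    (mul_le_mul_of_nonneg_right hb (by positivity)).trans h1
  have h4 : (mm j : ℝ) * (4 * (mm j : ℝ) * ((L : ℝ) * ((kk j : ℝ) + 1))) ≤ 4 * N1 :=
    (mul_le_mul_of_nonneg_left h3 (by linarith)).trans h2
  rw [div_mul_eq_mul_div, div_lt_div_iff₀ hl0 hK]
  nlinarith

end BP

theorem sum_N (J N1 : ℕ) (L N : ℕ → ℕ) (h : ∀ j < J, BP N1 j (L j) (N j)) : ∑ j : Fin J, N j ≤ N1 := by
  have h1 : ∀ n ≤ J, (∑ j ∈ range n, (N j : ℝ)) ≤ N1 * (1 - (1 / 2) ^ n) := by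
    intro n
    induction n with
    | zero => intro _; simp
    | succ n ih =>
      intro hn
      rw [sum_range_succ]
      have h2 := ih (by omega)
      have h3 : ((2 ^ (n + 1) * N n : ℕ) : ℝ) ≤ N1 := by exact_mod_cast (h n (by omega)).h3
      push_cast at h3
      have h4 : (N n : ℝ) ≤ N1 * (1 / 2) ^ (n + 1) := by
        rw [one_div, inv_pow, ← div_eq_mul_inv, le_div_iff₀ (by positivity)]
        linarith
      have h5 : (1 / 2 : ℝ) ^ (n + 1) = (1 / 2) ^ n / 2 := by ring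
      rw [h5] at h4 ⊢
      linarith
  have h2 := h1 J le_rfl
  have h3 : (∑ j ∈ range J, (N j : ℝ)) ≤ N1 := by
    refine h2.trans ?_
    have h4 : (0 : ℝ) ≤ (1 / 2) ^ J := by positivity
    have h5 : (0 : ℝ) ≤ N1 := Nat.cast_nonneg _
    nlinarith
  have h4 : ∑ j : Fin J, N j = ∑ j ∈ range J, N j := Fin.sum_univ_eq_sum_range N J
  rw [h4]
  exact_mod_cast h3

end Pool.Agent.K1H86.TZ
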