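import Mathlib
import Pool.Agent.K1H86.TZ.Par
import Pool.Agent.K1H86.TZ.An2

/-! The weights of the patterns over several blocks (helper86). -/

set_option autoImplicit false

namespace Pool.Agent.K1H86.TZ

open Finset Filter
open Pool.Agent.H95R2.BG Pool.Agent.H95R2.BG.LF
open Pool.Agent.Y876.HS (El pat BB)
open Pool.Agent.H358R5 (g D A B Fw bm)

theorem Fw_supp {K : ℕ} (L N : ℕ) (c : Fin K → ℕ) (hc : Fw L N c ≠ 0) : rad c ≤ N := by
  unfold Fw at hc
  unfold rad
  by_contra hcon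
  rw [if_neg hcon] at hc
  exact hc rfl

theorem D_pos {N1 j L N : ℕ} (h : BP N1 j L N) : 0 < D L (kk j + 1) N := by
  have hL1 : 1 ≤ L := by have := h.hL; omega
  apply (Pool.Agent.H358R5.LCD_full L (kk j + 1) hL1).2.2.2.1
  have h1 := h.h1
  have hb := bm_ge (mm j)
  have hm : (8 : ℝ) ≤ mm j := by exact_mod_cast mm_ge j
  have hL' : (1 : ℝ) ≤ L := by exact_mod_cast hL1
  have hK := BP.kkpos j
  have h2 : ((kk j + 1 : ℕ) : ℝ) ≤ N := by
    push_cast
    refine le_trans ?_ h1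
    have h3 : (1 : ℝ) ≤ bm (mm j) * L := one_le_mul_of_one_le_of_one_le (by linarith) hL'
    nlinarith
  exact_mod_cast h2

theorem N8 {N1 j L N : ℕ} (h : BP N1 j L N) : 8 * (L * (kk j + 1)) ≤ N := by
  have h1 := h.h1
  have hb := bm_ge (mm j)
  have hm : (8 : ℝ) ≤ mm j := by exact_mod_cast mm_ge j
  have h2 : ((8 * (L * (kk j + 1)) : ℕ) : ℝ) ≤ N := by
    push_cast
    refine le_trans ?_ h1
    apply mul_le_mul_of_nonneg_right (by linarith) (by positivity)
  exact_mod_cast h2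

theorem weights (J : ℕ) (hJ : 1 ≤ J) {K0 : ℕ} (e : Fin (K0 + 1) ≃ (Σ j : Fin J, Fin (kk j + 1)))
    (a b : Fin (K0 + 1) → ℕ) (hadm : AdmissibleL a b) (δ : ℝ) (hδ : 0 < δ) :
    ∀ᶠ X : ℝ in atTop, ∃ (W : Finset (Fin (K0 + 1)) → ℝ) (S0 : ℝ), 0 < S0 ∧ (∀ T, 0 ≤ W T) ∧
      ∑ T, W T ≤ 2 * S0 ∧
      (∀ j : Fin J, S0 ≤ ∑ i, ∑ T ∈ univ.filter (fun T => e.symm ⟨j, i⟩ ∈ T), W T) ∧
      (∀ (j : Fin J) (i i' : Fin (kk j + 1)),
        ∑ T ∈ univ.filter (fun T => e.symm ⟨j, i⟩ ∈ T ∧ e.symm ⟨j, i'⟩ ∈ T), W T ≤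
          (if i = i' then 300 / ((kk j : ℝ) + 1) else (300 / ((kk j : ℝ) + 1)) ^ 2) * S0) ∧
      ∀ T, (((Icc 1 ⌊3 * X⌋₊).filter (fun n => pat a b n = T)).card : ℝ) < X / Real.log X ^ BB (K0 + 1) →
        W T ≤ δ * S0 := by
  classical
  obtain ⟨N1, L, N, hN8, hBP⟩ := params J
  have hB : ∀ j : Fin J, BP N1 j (L j) (N j) := fun j => hBP j j.2
  have hNs := sum_N J N1 L N hBP
  have hN1 : 0 < N1 := by omega
  have hN1r : (0 : ℝ) < N1 := by exact_mod_cast hN1
  set G : ∀ j : Fin J, (Fin (kk j + 1) → ℕ) → ℝ := fun j => Fw (L j) (N j) with hG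
  set l : ℕ := N1 / 2 with hl
  have hl1 : 1 ≤ l := by omega
  have hlN : l ≤ N1 := by omega
  have hl2 : 2 * l ≤ N1 := by omega
  have hl3 : (N1 : ℝ) / 3 ≤ l := by
    have h1 : N1 ≤ 3 * l := by omega
    have h2 : (N1 : ℝ) ≤ 3 * l := by exact_mod_cast h1
    linarith
  -- the square sums
  have hDj : ∀ j : Fin J, ∑ c ∈ Box (kk j + 1) N1, G j c ^ 2 = D (L j) (kk j + 1) (N j) := fun j =>
    sq_Fw (L j) (N j) N1 (kk j + 1) (hB j).N_le
  have hDpos : ∀ j : Fin J, 0 < D (L j) (kk j + 1) (N j) := fun j => D_pos (hB j)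
  obtain ⟨V, hV⟩ : ∃ V : Fin J → ℝ, ∀ j, V j =
    ∑ s ∈ range (N j + 1), A (L j) (kk j) s * B (L j) (N j - s) ^ 2 := ⟨_, fun _ => rfl⟩
  have hVlow : ∀ j : Fin J, 8 * (N1 : ℝ) * D (L j) (kk j + 1) (N j) ≤ ((kk j : ℝ) + 1) * V j := fun j => by
    rw [hV]; exact (hB j).low
  have hVpos : ∀ j : Fin J, 0 < V j := by
    intro j
    have h1 := hVlow j
    have h2 := hDpos j
    have h3 := BP.kkpos j
    by_contra hcon
    push Not at hcon
    have h4 : ((kk j : ℝ) + 1) * V j ≤ 0 := mul_nonpos_of_nonneg_of_nonpos h3.le hcon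
    have h5 : 0 < 8 * (N1 : ℝ) * D (L j) (kk j + 1) (N j) := by positivity
    linarith
  have hUU : ∀ (j : Fin J) (i : Fin (kk j + 1)), ∑ c ∈ Box (kk j) N1, UU N1 (G j) i c ^ 2 = V j := by
    intro j i
    rw [hV]
    exact UU_Fw (L j) (N j) N1 (kk j) (hB j).N_le i
  have hSF : ∀ j0 : Fin J, ∑ c ∈ Box (K0 + 1) N1, Fp e G c ^ 2 = D (L j0) (kk j0 + 1) (N j0) *
      ∏ j ∈ univ.erase j0, D (L j) (kk j + 1) (N j) := by
    intro j0
    simp_rw [Fp_sq]
    rw [sum_Fp]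
    simp_rw [hDj]
    rw [mul_prod_erase univ (fun j : Fin J => D (L j) (kk j + 1) (N j)) (mem_univ j0)]
  have hPpos : ∀ j0 : Fin J, 0 < ∏ j ∈ univ.erase j0, D (L j) (kk j + 1) (N j) := fun j0 =>
    prod_pos fun j _ => hDpos j
  have j00 : Fin J := ⟨0, by omega⟩
  -- the lower bounds for single forms
  obtain ⟨q, hq⟩ : ∃ q : Fin (K0 + 1) → ℝ, ∀ i, q i =
    V (e i).1 / (8 * N1 * D (L (e i).1) (kk (e i).1 + 1) (N (e i).1)) := ⟨_, fun _ => rfl⟩
  have hqs : ∀ (j : Fin J) (i : Fin (kk j + 1)), q (e.symm ⟨j, i⟩) =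
      V j / (8 * N1 * D (L j) (kk j + 1) (N j)) := by
    intro j i
    rw [hq]
    have h : e (e.symm ⟨j, i⟩) = ⟨j, i⟩ := e.apply_symm_apply _
    rw [h]
  -- the collapsed weights
  obtain ⟨FJ, hFJ⟩ : ∃ FJ : (Σ j : Fin J, Finset (Fin (kk j + 1))) → (Fin (K0 + 1) → ℕ) → ℝ,
    ∀ p, FJ p = Fp e (Function.update G p.1 (El N1 (prof l) (G p.1) p.2.toList)) := ⟨_, fun _ => rfl⟩
  obtain ⟨js, hjs⟩ : ∃ js : (Σ j : Fin J, Finset (Fin (kk j + 1))) → Finset (Fin (K0 + 1)),
    ∀ p, js p = p.2.image (fun i => e.symm ⟨p.1, i⟩) := ⟨_, fun _ => rfl⟩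
  obtain ⟨ρ, hρ⟩ : ∃ ρ : (Σ j : Fin J, Finset (Fin (kk j + 1))) → ℝ,
    ∀ p, ρ p = if p.2.card = 0 then 2 else (300 / ((kk p.1 : ℝ) + 1)) ^ p.2.card := ⟨_, fun _ => rfl⟩
  have hbb : ∀ j : Fin J, ∑ t ∈ range N1, g (L j) (t + 1) ≤ 6 * mm j := fun j => (hB j).bb (by omega)
  have hmain := an2 (K0 := K0) (N1 := N1) (M := N1) (R := N1) (R' := 2 * N1 - 1) hN1 (by omega) le_rfl
    (Fp e G) (by
      intro c hc
      have h1 : ∀ j : Fin J, rad (blk e c j) ≤ N j := by
        intro j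
        apply Fw_supp (L j) (N j)
        unfold Fp at hc
        exact (Finset.prod_ne_zero_iff.1 hc) j (mem_univ j)
      rw [rad_blk e c]
      have h2 : ∑ j : Fin J, rad (blk e c j) ≤ ∑ j : Fin J, N j := sum_le_sum fun j _ => h1 j
      omega)
    (by rw [hSF j00]; exact mul_pos (hDpos _) (hPpos _))
    q (by
      intro i
      rw [hq]
      have h1 := hVpos (e i).1
      have h2 := hDpos (e i).1
      positivity)
    (by
      intro i
      obtain ⟨⟨j, i'⟩, rfl⟩ := e.symm.surjective i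
      rw [hqs, UU_Fp e N1 hN1 G j i', hUU, hSF j]
      simp_rw [hDj]
      have h1 := hVpos j
      have h2 := hDpos j
      have h3 := hPpos j
      have h4 : V j / (8 * N1 * D (L j) (kk j + 1) (N j)) * (4 * N1 * (D (L j) (kk j + 1) (N j) *
          ∏ j ∈ univ.erase j, D (L j) (kk j + 1) (N j))) =
          V j / 2 * ∏ j ∈ univ.erase j, D (L j) (kk j + 1) (N j) := by
        field_simp
        ring
      rw [h4]
      apply mul_lt_mul_of_pos_right _ h3
      linarith)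
    (univ.filter fun p : (Σ j : Fin J, Finset (Fin (kk j + 1))) => p.2.card ≤ 2) js FJ (by omega)
    (by
      intro p hp c hc
      have hp2 := (mem_filter.1 hp).2
      rw [hFJ] at hc
      unfold Fp at hc
      rw [Finset.prod_ne_zero_iff] at hc
      have h1 : ∀ j : Fin J, rad (blk e c j) ≤ N j + (if j = p.1 then N1 else 0) := by
        intro j
        have h2 := hc j (mem_univ j)
        by_cases hj : j = p.1
        · subst hj
          rw [Function.update_self] at h2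
          rw [if_pos rfl]
          have h3 := El_supp (L p.1) (N p.1) N1 l _ (hbb p.1) p.2 _ h2
          have h4 : p.2.card * l ≤ 2 * l := Nat.mul_le_mul_right _ hp2
          omega
        · rw [Function.update_of_ne hj] at h2
          rw [if_neg hj, add_zero]
          exact Fw_supp (L j) (N j) _ h2
      rw [rad_blk e c]
      have h2 : ∑ j : Fin J, rad (blk e c j) ≤ ∑ j : Fin J, (N j + (if j = p.1 then N1 else 0)) :=
        sum_le_sum fun j _ => h1 j
      rw [sum_add_distrib, sum_ite_eq' univ p.1 (fun _ => N1), if_pos (mem_univ _)] at h2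
      omega)
    (by
      intro p _ w hw
      rw [hFJ]
      apply pt_Fp e N1 G p.1 (prof l) (prof_sum l N1 hl1 hlN)
      intro i hi c
      apply hw
      rw [hjs]
      exact mem_image_of_mem _ (mem_toList.1 hi))
    ρ (by
      intro p hp
      rw [hFJ, hρ]
      simp_rw [Fp_update_sq]
      rw [sum_Fp_update, hSF p.1]
      simp_rw [hDj]
      rw [← mul_assoc]
      apply mul_lt_mul_of_pos_right _ (hPpos p.1)
      by_cases h0 : p.2.card = 0
      · rw [if_pos h0]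
        have h1 : p.2 = ∅ := card_eq_zero.1 h0
        rw [h1, Finset.toList_empty]
        show ∑ c ∈ Box (kk p.1 + 1) N1, G p.1 c ^ 2 < _
        rw [hDj]
        have := hDpos p.1
        linarith
      · rw [if_neg h0]
        have h1 := El_sq (L p.1) (N p.1) N1 l (hB p.1).N_le hl1 hlN _ (hbb p.1)
          (by have := (hB p.1).hL; omega) (by omega) (N8 (hB p.1)) p.2
        refine h1.trans_lt ?_
        apply mul_lt_mul_of_pos_right _ (hDpos p.1)
        apply pow_lt_pow_left₀ ((hB p.1).ratio l hl3 (by omega)) (by positivity) h0)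
    a b hadm δ hδ
  filter_upwards [hmain] with X hX
  obtain ⟨W, S0, hS0, hW, h1, h2, h3⟩ := hX
  refine ⟨W, S0, hS0, hW, ?_, ?_, ?_, h3⟩
  · have h4 := h2 ⟨j00, ∅⟩ (mem_filter.2 ⟨mem_univ _, by simp⟩)
    rw [hρ, hjs] at h4
    simpa using h4
  · intro j
    have h4 : ∀ i : Fin (kk j + 1), V j / (8 * N1 * D (L j) (kk j + 1) (N j)) * S0 ≤
        ∑ T ∈ univ.filter (fun T => e.symm ⟨j, i⟩ ∈ T), W T := by
      intro i
      have h5 := h1 (e.symm ⟨j, i⟩)
      rw [hqs] at h5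
      exact h5
    refine le_trans ?_ (sum_le_sum fun i _ => h4 i)
    rw [sum_const, card_univ, Fintype.card_fin, nsmul_eq_mul]
    push_cast
    have h5 := hVlow j
    have h6 := hDpos j
    have h7 : 1 ≤ ((kk j : ℝ) + 1) * (V j / (8 * N1 * D (L j) (kk j + 1) (N j))) := by
      rw [← mul_div_assoc, le_div_iff₀ (by positivity), one_mul]
      exact h5
    nlinarith
  · intro j i i'
    have h4 := h2 ⟨j, {i, i'}⟩ (mem_filter.2 ⟨mem_univ _, card_le_two⟩)
    rw [hρ, hjs] at h4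
    have h5 : (univ.filter fun T => ({i, i'} : Finset (Fin (kk j + 1))).image (fun i => e.symm ⟨j, i⟩) ⊆ T) =
        univ.filter (fun T => e.symm ⟨j, i⟩ ∈ T ∧ e.symm ⟨j, i'⟩ ∈ T) := by
      ext T
      simp only [mem_filter, mem_univ, true_and, image_insert, image_singleton, insert_subset_iff,
        singleton_subset_iff]
    simp only [h5] at h4
    refine h4.trans (mul_le_mul_of_nonneg_right ?_ hS0.le)
    by_cases hi : i = i'
    · subst hi
      rw [if_pos rfl]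
      simp
    · rw [if_neg hi, card_pair hi]
      simp

end Pool.Agent.K1H86.TZ
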