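import Mathlib
import Pool.Agent.K1H86.TZ.Wts
import Pool.Agent.K1H86.PP.Often

/-! A probability measure on the patterns which occur often, under which every block contains a prime
with a probability bounded from below (helper86). -/

set_option autoImplicit false

namespace Pool.Agent.K1H86.TZ

open Finset Filter
open Pool.Agent.H95R2.BG.LF
open Pool.Agent.Y876.HS (pat mem_pat BB)
open Pool.Agent.K1H86.PP (Often)

/-- the indices of the forms: `J` blocks -/
abbrev Ix (J : ℕ) : Type := Σ j : Fin J, Fin (kk j + 1)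

/-- Cauchy-Schwarz -/
theorem cs {α : Type*} [Fintype α] [DecidableEq α] {n : ℕ} (W : Finset α → ℝ) (hW : ∀ T, 0 ≤ W T) (S0 : ℝ)
    (f : Fin n → α) (r : ℝ) (hn : 0 < n) (hr : r = 300 / (n : ℝ))
    (h1 : S0 ≤ ∑ i, ∑ T ∈ univ.filter (fun T => f i ∈ T), W T)
    (h2 : ∀ i i', ∑ T ∈ univ.filter (fun T => f i ∈ T ∧ f i' ∈ T), W T ≤ (if i = i' then r else r ^ 2) * S0)
    (hS0 : 0 < S0) :
    S0 / 90300 ≤ ∑ T ∈ univ.filter (fun T => ∃ i, f i ∈ T), W T := by
  have hn' : (0 : ℝ) < n := by exact_mod_cast hn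
  obtain ⟨c, hc⟩ : ∃ c : Finset α → ℝ, ∀ T, c T = ∑ i, if f i ∈ T then (1 : ℝ) else 0 := ⟨_, fun _ => rfl⟩
  have hc0 : ∀ T, 0 ≤ c T := by
    intro T
    rw [hc]
    exact sum_nonneg fun i _ => by split_ifs <;> norm_num
  have e1 : ∑ i, ∑ T ∈ univ.filter (fun T => f i ∈ T), W T = ∑ T, c T * W T := by
    simp_rw [sum_filter, hc, sum_mul]
    rw [sum_comm]
    refine sum_congr rfl fun T _ => sum_congr rfl fun i _ => ?_
    split_ifs <;> simp
  have e2 : ∑ T, c T ^ 2 * W T = ∑ i, ∑ i', ∑ T ∈ univ.filter (fun T => f i ∈ T ∧ f i' ∈ T), W T := by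
    have h3 : ∀ T, c T ^ 2 * W T = ∑ i, ∑ i', if f i ∈ T ∧ f i' ∈ T then W T else 0 := by
      intro T
      rw [hc, sq, sum_mul_sum, sum_mul]
      refine sum_congr rfl fun i _ => ?_
      rw [sum_mul]
      refine sum_congr rfl fun i' _ => ?_
      by_cases h4 : f i ∈ T <;> by_cases h5 : f i' ∈ T <;> simp [h4, h5]
    simp_rw [h3, sum_filter]
    rw [sum_comm]
    refine sum_congr rfl fun i _ => ?_
    rw [sum_comm]
  have h3 : ∑ T, c T ^ 2 * W T ≤ 90300 * S0 := by
    rw [e2]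
    calc _ ≤ ∑ i : Fin n, ∑ i' : Fin n, (if i = i' then r else r ^ 2) * S0 :=
          sum_le_sum fun i _ => sum_le_sum fun i' _ => h2 i i'
      _ ≤ ∑ i : Fin n, ∑ i' : Fin n, ((if i = i' then r else 0) + r ^ 2) * S0 := by
          refine sum_le_sum fun i _ => sum_le_sum fun i' _ => mul_le_mul_of_nonneg_right ?_ hS0.le
          split_ifs
          · nlinarith [sq_nonneg r]
          · linarith
      _ = (n * r + n * (n * r ^ 2)) * S0 := by
          simp_rw [add_mul, sum_add_distrib, ite_mul, zero_mul]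
          simp only [sum_ite_eq, mem_univ, if_true, sum_const, card_univ, Fintype.card_fin, nsmul_eq_mul]
          ring
      _ ≤ 90300 * S0 := by
          apply mul_le_mul_of_nonneg_right _ hS0.le
          rw [hr]
          have h4 : (n : ℝ) * (300 / n) = 300 := by field_simp
          have h5 : (n : ℝ) * (n * (300 / (n : ℝ)) ^ 2) = 90000 := by
            field_simp
            norm_num
          rw [h4, h5]
          norm_num
  have h4 : ∑ T, c T * W T ≤ ∑ T, (45150 * (if (∃ i, f i ∈ T) then W T else 0) + c T ^ 2 * W T / 180600) := by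
    refine sum_le_sum fun T _ => ?_
    by_cases h5 : ∃ i, f i ∈ T
    · rw [if_pos h5]
      have h6 : c T ≤ 45150 + c T ^ 2 / 180600 := by nlinarith [sq_nonneg (c T - 90300)]
      have := mul_le_mul_of_nonneg_right h6 (hW T)
      linarith
    · rw [if_neg h5]
      have h6 : c T = 0 := by
        rw [hc]
        apply sum_eq_zero
        intro i _
        rw [if_neg]
        intro h7
        exact h5 ⟨i, h7⟩
      rw [h6]
      simp
  rw [sum_add_distrib, ← mul_sum, ← sum_filter, ← sum_div] at h4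
  rw [e1] at h1
  linarith

/-- from intervals to `Often` -/
theorem not_often {C : ℕ} {Q : ℕ → Prop} [DecidablePred Q] (h : ¬ Often (C + 1) Q) :
    ∀ᶠ X : ℝ in atTop, (((Icc 1 ⌊3 * X⌋₊).filter Q).card : ℝ) < X / Real.log X ^ C := by
  by_contra hcon
  apply h
  rw [not_eventually] at hcon
  have ht : Tendsto (fun X : ℝ => 3 * X) atTop atTop := tendsto_id.const_mul_atTop (by norm_num)
  refine ht.frequently ?_
  refine (hcon.and_eventually ((Real.tendsto_log_atTop.eventually_ge_atTop 3).and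
    (eventually_ge_atTop (1 : ℝ)))).mono ?_
  rintro X ⟨h1, h2, h3⟩
  rw [not_lt] at h1
  have hlog : Real.log X ≤ Real.log (3 * X) := Real.log_le_log (by linarith) (by linarith)
  have h4 : 3 * X / Real.log (3 * X) ^ (C + 1) ≤ X / Real.log X ^ C := by
    have h5 : 3 * X / Real.log (3 * X) ^ (C + 1) ≤ 3 * X / Real.log X ^ (C + 1) :=
      div_le_div_of_nonneg_left (by linarith) (by positivity) (pow_le_pow_left₀ (by linarith) hlog _)
    refine h5.trans ?_
    rw [div_le_div_iff₀ (by positivity) (by positivity), pow_succ]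
    have h6 : 0 < Real.log X ^ C := by positivity
    have h7 : 3 * X * Real.log X ^ C ≤ Real.log X * (X * Real.log X ^ C) := by
      have : 0 ≤ X * Real.log X ^ C := by positivity
      nlinarith
    linarith
  refine h4.trans (h1.trans ?_)
  rw [← Set.ncard_coe_finset]
  refine Nat.cast_le.2 (Set.ncard_le_ncard ?_ (Pool.Agent.K1H86.PP.fin_le _ _))
  intro n hn
  rw [mem_coe, mem_filter, mem_Icc, Nat.le_floor_iff (by linarith)] at hn
  exact ⟨hn.1.2, hn.2⟩

/-- patterns of natural forms -/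
theorem prob_fin (J : ℕ) (hJ : 1 ≤ J) {K0 : ℕ} (e : Fin (K0 + 1) ≃ Ix J) (a b : Fin (K0 + 1) → ℕ)
    (hadm : AdmissibleL a b) : ∃ P : Finset (Fin (K0 + 1)) → ℝ, (∀ T, 0 ≤ P T) ∧ ∑ T, P T = 1 ∧
      (∀ j : Fin J, (1 / 10 ^ 6 : ℝ) ≤ ∑ T ∈ univ.filter (fun T => ∃ i, e.symm ⟨j, i⟩ ∈ T), P T) ∧
      ∀ T, P T ≠ 0 → Often (BB (K0 + 1) + 1) (fun n => pat a b n = T) := by
  classical
  obtain ⟨δ, hδ⟩ : ∃ δ : ℝ, δ = 1 / (10 ^ 6 * 2 ^ (K0 + 1)) := ⟨_, rfl⟩
  have hδ0 : 0 < δ := by rw [hδ]; positivity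
  have hbad : ∀ᶠ X : ℝ in atTop, ∀ T ∈ (univ : Finset (Finset (Fin (K0 + 1)))),
      ¬ Often (BB (K0 + 1) + 1) (fun n => pat a b n = T) →
      (((Icc 1 ⌊3 * X⌋₊).filter (fun n => pat a b n = T)).card : ℝ) < X / Real.log X ^ BB (K0 + 1) := by
    rw [Filter.eventually_all_finset]
    intro T _
    by_cases h : Often (BB (K0 + 1) + 1) (fun n => pat a b n = T)
    · filter_upwards with X h'
      exact absurd h h'
    · filter_upwards [not_often h] with X hX _
      exact hX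
  obtain ⟨X, hX1, hX2⟩ := ((weights J hJ e a b hadm δ hδ0).and hbad).exists
  obtain ⟨W, S0, hS0, hW, h1, h2, h3, h4⟩ := hX1
  have h5 : ∀ T, ¬ Often (BB (K0 + 1) + 1) (fun n => pat a b n = T) → W T ≤ δ * S0 := fun T hT =>
    h4 T (hX2 T (mem_univ _) hT)
  obtain ⟨W', hW'⟩ : ∃ W' : Finset (Fin (K0 + 1)) → ℝ, ∀ T, W' T =
    if Often (BB (K0 + 1) + 1) (fun n => pat a b n = T) then W T else 0 := ⟨_, fun _ => rfl⟩
  have hW'0 : ∀ T, 0 ≤ W' T := by
    intro T
    rw [hW']
    split_ifs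
    · exact hW T
    · exact le_rfl
  have hW'le : ∀ T, W' T ≤ W T := by
    intro T
    rw [hW']
    split_ifs
    · exact le_rfl
    · exact hW T
  have hWW' : ∀ T, W T ≤ W' T + δ * S0 := by
    intro T
    rw [hW']
    split_ifs with h
    · have : 0 ≤ δ * S0 := by positivity
      linarith
    · have := h5 T h
      linarith
  have hhit : ∀ j : Fin J, S0 / 10 ^ 5 ≤ ∑ T ∈ univ.filter (fun T => ∃ i, e.symm ⟨j, i⟩ ∈ T), W' T := by
    intro j
    have h6 := cs W hW S0 (fun i : Fin (kk j + 1) => e.symm ⟨j, i⟩) (300 / ((kk j : ℝ) + 1)) (Nat.succ_pos _)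
      (by push_cast; rfl) (h2 j) (h3 j) hS0
    have h7 : ∑ T ∈ univ.filter (fun T => ∃ i, e.symm ⟨j, i⟩ ∈ T), W T ≤
        ∑ T ∈ univ.filter (fun T => ∃ i, e.symm ⟨j, i⟩ ∈ T), W' T + 2 ^ (K0 + 1) * (δ * S0) := by
      calc _ ≤ ∑ T ∈ univ.filter (fun T => ∃ i, e.symm ⟨j, i⟩ ∈ T), (W' T + δ * S0) :=
            sum_le_sum fun T _ => hWW' T
        _ ≤ _ := by
            rw [sum_add_distrib, sum_const, nsmul_eq_mul]
            have h8 : ((univ.filter (fun T : Finset (Fin (K0 + 1)) => ∃ i, e.symm ⟨j, i⟩ ∈ T)).card : ℝ) ≤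
                2 ^ (K0 + 1) := by
              have h9 : (univ.filter (fun T : Finset (Fin (K0 + 1)) => ∃ i, e.symm ⟨j, i⟩ ∈ T)).card ≤
                  2 ^ (K0 + 1) := by
                refine (card_le_univ _).trans ?_
                rw [Fintype.card_finset, Fintype.card_fin]
              exact_mod_cast h9
            have h9 : 0 ≤ δ * S0 := by positivity
            nlinarith
    have h8 : 2 ^ (K0 + 1) * (δ * S0) = S0 / 10 ^ 6 := by
      rw [hδ]
      field_simp
    rw [h8] at h7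
    have h9 : S0 / 10 ^ 5 ≤ S0 / 90300 - S0 / 10 ^ 6 := by
      have : S0 / 10 ^ 5 = S0 * (1 / 10 ^ 5) := by ring
      nlinarith
    linarith
  obtain ⟨S, hS⟩ : ∃ S : ℝ, S = ∑ T, W' T := ⟨_, rfl⟩
  have hS2 : S ≤ 2 * S0 := by
    rw [hS]
    exact (sum_le_sum fun T _ => hW'le T).trans h1
  have hSpos : 0 < S := by
    obtain ⟨j00⟩ : Nonempty (Fin J) := ⟨⟨0, by omega⟩⟩
    have h6 := hhit j00
    have h7 : ∑ T ∈ univ.filter (fun T => ∃ i, e.symm ⟨j00, i⟩ ∈ T), W' T ≤ S := by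
      rw [hS]
      exact sum_le_sum_of_subset_of_nonneg (filter_subset _ _) fun T _ _ => hW'0 T
    have h8 : 0 < S0 / 10 ^ 5 := by positivity
    linarith
  refine ⟨fun T => W' T / S, fun T => div_nonneg (hW'0 T) hSpos.le, ?_, fun j => ?_, fun T hT => ?_⟩
  · rw [← sum_div, ← hS, div_self hSpos.ne']
  · rw [← sum_div, le_div_iff₀ hSpos]
    have h6 := hhit j
    have h7 : S0 / 10 ^ 5 = S0 * (1 / 10 ^ 5) := by ring
    rw [h7] at h6
    norm_num at h6 ⊢
    linarith
  · by_contra hcon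
    apply hT
    show W' T / S = 0
    rw [hW', if_neg hcon, zero_div]

end Pool.Agent.K1H86.TZ
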