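import Mathlib
import Pool.Agent.K1H86.TZ.Prob
import Pool.Agent.TH779.Shat.Trace

/-! The same for forms with integer coefficients, all other forms of a finite family being composite
(helper86). -/

set_option autoImplicit false

namespace Pool.Agent.K1H86.TZ

open Finset Filter
open Pool.Agent.H95R2.BG.LF
open Pool.Agent.Y876.HS (pat mem_pat BB)
open Pool.Agent.K1H86.PP (Often)

theorem prob_int (J : ℕ) (hJ : 1 ≤ J) : ∃ C : ℕ, ∀ {ι : Type} [Fintype ι] (a b : ι → ℤ),
    (∀ i, 0 < a i) → (∀ i j, i ≠ j → a i * b j ≠ a j * b i) → ∀ (g : Ix J → ι), Function.Injective g →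
    (∀ p : ℕ, p.Prime → ∃ n : ℕ, ∀ s, ¬ (p : ℤ) ∣ a (g s) * n + b (g s)) →
    ∃ P : Finset (Ix J) → ℝ, (∀ T, 0 ≤ P T) ∧ ∑ T, P T = 1 ∧
      (∀ j : Fin J, (1 / 10 ^ 6 : ℝ) ≤ ∑ T ∈ univ.filter (fun T => ∃ i, (⟨j, i⟩ : Ix J) ∈ T), P T) ∧
      ∀ T, P T ≠ 0 → Often C (fun n => ∀ i, ((a i * (n : ℤ) + b i).natAbs.Prime ↔ ∃ s ∈ T, g s = i)) := by
  classical
  have hne0 : Fintype.card (Ix J) ≠ 0 := by
    have : Nonempty (Ix J) := ⟨⟨⟨0, by omega⟩, 0⟩⟩
    exact Fintype.card_ne_zero
  obtain ⟨K0, hK0⟩ := Nat.exists_eq_succ_of_ne_zero hne0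
  let e : Fin (K0 + 1) ≃ Ix J := (Fintype.equivFinOfCardEq hK0).symm
  refine ⟨BB (K0 + 1) + 1 + 2, ?_⟩
  intro ι _ a b ha hne g hg hloc
  -- natural coefficients
  obtain ⟨s0, hs0⟩ : ∃ s0 : ℕ, s0 = ∑ i, (b i).natAbs := ⟨_, rfl⟩
  set A : ι → ℕ := fun i => (a i).toNat with hA
  set B : ι → ℕ := fun i => (a i * s0 + b i).toNat with hB
  have hAi : ∀ i, ((A i : ℕ) : ℤ) = a i := fun i => Int.toNat_of_nonneg (ha i).le
  have hBi : ∀ i, ((B i : ℕ) : ℤ) = a i * s0 + b i := by
    intro i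
    apply Int.toNat_of_nonneg
    have h1 : (b i).natAbs ≤ s0 := by
      rw [hs0]
      exact single_le_sum (f := fun i => (b i).natAbs) (fun _ _ => Nat.zero_le _) (mem_univ i)
    have h2 : -(s0 : ℤ) ≤ b i := by omega
    have h3 : (s0 : ℤ) ≤ a i * s0 := by
      have := ha i
      nlinarith [Int.natCast_nonneg s0]
    linarith
  have hA1 : ∀ i, 1 ≤ A i := by
    intro i
    have h1 := hAi i
    have h2 := ha i
    omega
  have hneN : ∀ i j, i ≠ j → A i * B j ≠ A j * B i := by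
    intro i j hij h
    apply hne i j hij
    have h1 : ((A i * B j : ℕ) : ℤ) = ((A j * B i : ℕ) : ℤ) := by rw [h]
    push_cast at h1
    rw [hAi, hAi, hBi, hBi] at h1
    linarith
  set S : Finset ι := univ.image g with hS
  have hgS : ∀ s, g s ∈ S := fun s => mem_image_of_mem _ (mem_univ s)
  obtain ⟨W, ν₀, hW, h1, h2⟩ := Pool.Agent.TH779.Shat.congruences A B hA1 hneN S (univ \ S) sdiff_disjoint
  set ν := ν₀ + W with hν
  have h1' : ∀ i ∉ S, ∃ p : ℕ, p.Prime ∧ p ∣ W ∧ p ∣ A i * ν + B i := by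
    intro i hi
    obtain ⟨p, hp, hpW, hp2⟩ := h1 i (Finset.mem_sdiff.2 ⟨mem_univ _, hi⟩)
    refine ⟨p, hp, hpW, ?_⟩
    rw [hν, mul_add, add_right_comm]
    exact dvd_add hp2 (hpW.mul_left _)
  have h2' : ∀ p : ℕ, p.Prime → p ∣ W → ∀ j ∈ S, ¬ p ∣ A j * ν + B j := by
    intro p hp hpW j hj hd
    apply h2 p hp hpW j hj
    rw [hν, mul_add, add_right_comm] at hd
    exact (Nat.dvd_add_left (hpW.mul_left (A j))).1 hd
  have hval : ∀ (i : ι) (t : ℕ), A i * W * t + (A i * ν + B i) = A i * (W * t + ν) + B i := by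
    intro i t
    ring
  have hadm : AdmissibleL (fun l => A (g (e l)) * W) (fun l => A (g (e l)) * ν + B (g (e l))) := by
    refine ⟨fun l => Nat.mul_pos (hA1 _) hW, fun l l' hll h => ?_, fun p hp => ?_⟩
    · apply hneN (g (e l)) (g (e l')) (fun h' => hll (e.injective (hg h')))
      have h3 : W * (A (g (e l)) * B (g (e l'))) = W * (A (g (e l')) * B (g (e l))) := by
        have h4 : A (g (e l)) * W * (A (g (e l')) * ν + B (g (e l'))) =
          W * (A (g (e l)) * B (g (e l'))) + W * (A (g (e l)) * A (g (e l')) * ν) := by ring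
        have h5 : A (g (e l')) * W * (A (g (e l)) * ν + B (g (e l))) =
          W * (A (g (e l')) * B (g (e l))) + W * (A (g (e l)) * A (g (e l')) * ν) := by ring
        simp only at h
        omega
      exact Nat.eq_of_mul_eq_mul_left hW h3
    · by_cases hpW : p ∣ W
      · refine ⟨0, fun l => ?_⟩
        simp only [mul_zero, zero_add]
        exact h2' p hp hpW _ (hgS _)
      · obtain ⟨n, hn⟩ := hloc p hp
        have : Fact p.Prime := ⟨hp⟩
        have hWZ : (W : ZMod p) ≠ 0 := fun h => hpW ((ZMod.natCast_eq_zero_iff _ _).1 h)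
        refine ⟨(((n : ZMod p) - s0 - ν) / (W : ZMod p)).val, fun l hd => ?_⟩
        apply hn (e l)
        rw [← ZMod.intCast_zmod_eq_zero_iff_dvd]
        rw [← ZMod.natCast_eq_zero_iff] at hd
        push_cast at hd ⊢
        rw [ZMod.natCast_zmod_val] at hd
        have h5 : ((A (g (e l)) : ℕ) : ZMod p) = ((a (g (e l)) : ℤ) : ZMod p) := by
          rw [← hAi (g (e l))]
          push_cast
          rfl
        have h6 : ((B (g (e l)) : ℕ) : ZMod p) = ((a (g (e l)) : ℤ) : ZMod p) * s0 + ((b (g (e l)) : ℤ) : ZMod p) := by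
          have h7 := congrArg (fun z : ℤ => (z : ZMod p)) (hBi (g (e l)))
          push_cast at h7
          exact h7
        rw [h5, h6] at hd
        rw [← hd]
        field_simp
        ring
  obtain ⟨P0, hP0, hP1, hP2, hP3⟩ := prob_fin J hJ e _ _ hadm
  refine ⟨fun T => P0 (T.map e.symm.toEmbedding), fun T => hP0 _, ?_, fun j => ?_, fun T hT => ?_⟩
  · rw [← hP1]
    exact Fintype.sum_equiv e.symm.finsetCongr _ _ fun T => rfl
  · refine (hP2 j).trans (le_of_eq ?_)
    rw [sum_filter, sum_filter]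
    symm
    refine Fintype.sum_equiv e.symm.finsetCongr _ _ fun T => ?_
    have h3 : (∃ i, (⟨j, i⟩ : Ix J) ∈ T) ↔ ∃ i, e.symm ⟨j, i⟩ ∈ e.symm.finsetCongr T := by
      simp [Equiv.finsetCongr_apply]
    by_cases h4 : ∃ i, (⟨j, i⟩ : Ix J) ∈ T
    · rw [if_pos h4, if_pos (h3.1 h4)]
      rfl
    · rw [if_neg h4, if_neg (fun h5 => h4 (h3.2 h5))]
  · have h3 := hP3 _ hT
    refine Often.shift (W : ℤ) ((ν : ℤ) + s0) (by exact_mod_cast hW) 1 h3 ?_
    intro n hn hpat
    refine ⟨W * n + ν + s0, by push_cast; ring, fun i => ?_⟩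
    have hv : (a i * ((W * n + ν + s0 : ℕ) : ℤ) + b i).natAbs = A i * (W * n + ν) + B i := by
      have h4 : (a i * ((W * n + ν + s0 : ℕ) : ℤ) + b i) = ((A i * (W * n + ν) + B i : ℕ) : ℤ) := by
        push_cast
        rw [hAi, hBi]
        ring
      rw [h4, Int.natAbs_natCast]
    rw [hv]
    by_cases hi : i ∈ S
    · rw [hS, mem_image] at hi
      obtain ⟨s, _, rfl⟩ := hi
      have h4 : e.symm s ∈ pat (fun l => A (g (e l)) * W) (fun l => A (g (e l)) * ν + B (g (e l))) n ↔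
        (A (g (e (e.symm s))) * W * n + (A (g (e (e.symm s))) * ν + B (g (e (e.symm s))))).Prime := mem_pat _ _ _ _
      rw [e.apply_symm_apply, hval, hpat] at h4
      rw [← h4]
      constructor
      · intro h5
        rw [Finset.mem_map] at h5
        obtain ⟨s', hs', he⟩ := h5
        have h6 : s' = s := e.symm.injective he
        exact ⟨s', hs', by rw [h6]⟩
      · rintro ⟨s', hs', he⟩
        rw [Finset.mem_map]
        exact ⟨s', hs', by rw [hg he]; rfl⟩
    · constructor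
      · intro hpr
        exfalso
        obtain ⟨p, hp, hpW, hpd⟩ := h1' i hi
        have h3 : p ∣ A i * (W * n + ν) + B i := by
          have : A i * (W * n + ν) + B i = W * (A i * n) + (A i * ν + B i) := by ring
          rw [this]
          exact dvd_add (hpW.mul_right _) hpd
        have h4 : p = A i * (W * n + ν) + B i := (Nat.prime_dvd_prime_iff_eq hp hpr).1 h3
        have h5 : p ≤ W := Nat.le_of_dvd hW hpW
        have h6 : W + W ≤ W * n + ν := by
          have : W * 1 ≤ W * n := Nat.mul_le_mul_left _ hn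
          omega
        have h7 : 1 * (W * n + ν) ≤ A i * (W * n + ν) := Nat.mul_le_mul_right _ (hA1 i)
        omega
      · rintro ⟨s, _, he⟩
        exact absurd (he ▸ hgS s) hi

end Pool.Agent.K1H86.TZ
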