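import Mathlib
import Pool.Agent.K1H86.TZ.PInt
import Pool.Agent.K1H86.TZ.Galvin
import Pool.Agent.K1H86.TZ.Lim
import Pool.Agent.K1H86.PP.Inf

/-! Every infinite sequence of linear forms has an infinite subsequence all of whose finite subsets are the
exact sets of prime values (helper86). -/

set_option autoImplicit false

namespace Pool.Agent.K1H86.TZ

open Finset Filter
open Pool.Agent.K1H86.PP (Often Seq prim_eq adm_large)

/-- the form `r` has a prime value at `n` -/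
def Pr (r : ℤ × ℤ) (n : ℕ) : Prop := (r.1 * (n : ℤ) + r.2).natAbs.Prime

/-- primitive forms outside the sequence -/
def Out (f : ℕ → ℤ × ℤ) (R : Finset (ℤ × ℤ)) : Prop := ∀ r ∈ R, 0 < r.1 ∧ IsCoprime r.1 r.2 ∧ ∀ t, r ≠ f t

/-- the exact set of the prime values with an index `≤ max s` can be `s` -/
def Phi (f : ℕ → ℤ × ℤ) (s : Finset ℕ) : Prop := ∀ R, Out f R → ∃ C,
  Often C (fun n => (∀ t, (∃ y ∈ s, t ≤ y) → (Pr (f t) n ↔ t ∈ s)) ∧ ∀ r ∈ R, ¬ Pr r n)

/-- every finite subset of `T` is the exact set of the indices of prime values -/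
def Full (f : ℕ → ℤ × ℤ) (T : Set ℕ) : Prop := ∀ J : Finset ℕ, (J : Set ℕ) ⊆ T → ∀ k, ∀ R, Out f R → ∃ C,
  Often C (fun n => (∀ t < k, (Pr (f t) n ↔ t ∈ J)) ∧ (∀ t ∈ J, Pr (f t) n) ∧ ∀ r ∈ R, ¬ Pr r n)

theorem Full.mono {f : ℕ → ℤ × ℤ} {T T' : Set ℕ} (h : Full f T) (hT : T' ⊆ T) : Full f T' :=
  fun J hJ => h J (hJ.trans hT)

/-- a locally solvable subsequence -/
theorem sub_adm {f : ℕ → ℤ × ℤ} (hf : Seq f) (M : Set ℕ) (hM : M.Infinite) :
    ∃ w : ℕ → ℕ, StrictMono w ∧ (∀ l, w l ∈ M) ∧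
      ∀ p : ℕ, p.Prime → ∃ n : ℕ, ∀ l, ¬ (p : ℤ) ∣ (f (w l)).1 * n + (f (w l)).2 := by
  classical
  have href : ∀ (k : ℕ) (Y : {Y : Set ℕ // Y.Infinite}), ∃ Z : {Y : Set ℕ // Y.Infinite}, Z.1 ⊆ Y.1 ∧
      ∀ s ∈ Z.1, ∀ t ∈ Z.1, ((k + 2).factorial : ℤ) ∣ (f s).1 - (f t).1 ∧
        ((k + 2).factorial : ℤ) ∣ (f s).2 - (f t).2 := by
    rintro k ⟨Y, hY⟩
    haveI : NeZero (k + 2).factorial := ⟨(Nat.factorial_pos _).ne'⟩
    haveI := hY.to_subtype
    obtain ⟨c, hc⟩ := Finite.exists_infinite_fiber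
      (fun t : Y => (((f t).1 : ZMod (k + 2).factorial), ((f t).2 : ZMod (k + 2).factorial)))
    refine ⟨⟨{t | t ∈ Y ∧ (((f t).1 : ZMod (k + 2).factorial), ((f t).2 : ZMod (k + 2).factorial)) = c}, ?_⟩,
      fun t ht => ht.1, fun s hs t ht => ?_⟩
    · have h1 : ((fun t : Y => (((f t).1 : ZMod (k + 2).factorial), ((f t).2 : ZMod (k + 2).factorial))) ⁻¹'
          {c}).Infinite := Set.infinite_coe_iff.1 hc
      refine (h1.image (Set.injOn_of_injective Subtype.val_injective)).mono ?_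
      rintro _ ⟨t, ht, rfl⟩
      exact ⟨t.2, ht⟩
    · have h3 := hs.2.trans ht.2.symm
      rw [Prod.mk.injEq, ZMod.intCast_eq_intCast_iff_dvd_sub, ZMod.intCast_eq_intCast_iff_dvd_sub] at h3
      exact ⟨(dvd_neg.2 h3.1).trans (by rw [neg_sub]), (dvd_neg.2 h3.2).trans (by rw [neg_sub])⟩
  choose ref hsub hgood using href
  let Y : ℕ → {Y : Set ℕ // Y.Infinite} := fun n => Nat.rec (ref 0 ⟨M, hM⟩) (fun j Z => ref (j + 1) Z) n
  have hYs : ∀ n, Y (n + 1) = ref (n + 1) (Y n) := fun n => rfl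
  have hmono : ∀ a b, a ≤ b → (Y b).1 ⊆ (Y a).1 := by
    intro a b hab
    induction b, hab using Nat.le_induction with
    | base => exact subset_rfl
    | succ b _ ih => rw [hYs]; exact (hsub _ _).trans ih
  have hYM : ∀ n, (Y n).1 ⊆ M := fun n => (hmono 0 n (Nat.zero_le _)).trans (hsub _ _)
  have hY : ∀ j, ∀ s ∈ (Y j).1, ∀ t ∈ (Y j).1, ((j + 2).factorial : ℤ) ∣ (f s).1 - (f t).1 ∧
      ((j + 2).factorial : ℤ) ∣ (f s).2 - (f t).2 := by
    intro j
    cases j with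
    | zero => exact hgood 0 _
    | succ j => rw [hYs]; exact hgood _ _
  have hex : ∀ (j n : ℕ), ∃ x, x ∈ (Y j).1 ∧ n < x := fun j n => (Y j).2.exists_gt n
  choose c hc1 hc2 using hex
  let w : ℕ → ℕ := fun n => Nat.rec (c 0 0) (fun j x => c (j + 1) x) n
  have hws : ∀ n, w (n + 1) = c (n + 1) (w n) := fun n => rfl
  have hwm : StrictMono w := strictMono_nat_of_lt_succ (fun n => by rw [hws]; exact hc2 _ _)
  have hwY : ∀ n, w n ∈ (Y n).1 := by
    intro n
    cases n with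
    | zero => exact hc1 0 0
    | succ n => rw [hws]; exact hc1 (n + 1) (w n)
  refine ⟨w, hwm, fun l => hYM l (hwY l), fun p hp => ?_⟩
  have hp2 := hp.two_le
  obtain ⟨n, hn⟩ := adm_large hf ((range (p - 1)).image w) hp (by
    refine (card_image_le).trans_lt ?_
    rw [card_range]
    omega)
  refine ⟨n, fun l hd => ?_⟩
  rcases Nat.lt_or_ge l (p - 1) with hl | hl
  · exact hn _ (mem_image_of_mem _ (mem_range.2 hl)) hd
  · -- the form `w l` is congruent to the form `w (p - 2)`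
    have h1 := hY (p - 2) (w l) (hmono (p - 2) l (by omega) (hwY l)) (w (p - 2)) (hwY _)
    have h2 : (p : ℤ) ∣ (((p - 2) + 2).factorial : ℤ) :=
      Int.natCast_dvd_natCast.2 ((hp.dvd_factorial).2 (by omega))
    apply hn (w (p - 2)) (mem_image_of_mem _ (mem_range.2 (by omega)))
    have h4 : (f (w (p - 2))).1 * (n : ℤ) + (f (w (p - 2))).2 = ((f (w l)).1 * (n : ℤ) + (f (w l)).2) -
        (((f (w l)).1 - (f (w (p - 2))).1) * n + ((f (w l)).2 - (f (w (p - 2))).2)) := by ring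
    rw [h4]
    exact dvd_sub hd (dvd_add (Dvd.dvd.mul_right (h2.trans h1.1) _) (h2.trans h1.2))

/-- the number of the forms in the first `j` blocks -/
noncomputable def off (j : ℕ) : ℕ := ∑ i ∈ range j, (kk i + 1)

theorem off_succ (j : ℕ) : off (j + 1) = off j + (kk j + 1) := by
  unfold off
  rw [sum_range_succ]

theorem off_mono : Monotone off := monotone_nat_of_le_succ fun j => by rw [off_succ]; omega

theorem off_ge (j : ℕ) : j ≤ off j := by
  induction j with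
  | zero => omega
  | succ j ih => rw [off_succ]; omega

/-- the position of a form -/
noncomputable def pos {J : ℕ} (s : Ix J) : ℕ := off s.1 + s.2

theorem pos_lt {J : ℕ} (s : Ix J) : pos s < off (s.1 + 1) := by
  unfold pos
  rw [off_succ]
  have := s.2.2
  omega

theorem pos_lt' {J : ℕ} (s : Ix J) : pos s < off J :=
  (pos_lt s).trans_le (off_mono (by have := s.1.2; omega))

theorem pos_ge {J : ℕ} (s : Ix J) : off s.1 ≤ pos s := by
  unfold pos
  omega

theorem pos_inj {J : ℕ} : Function.Injective (pos (J := J)) := by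
  rintro ⟨j, i⟩ ⟨j', i'⟩ h
  have h1 : j = j' := by
    rcases lt_trichotomy j j' with h2 | h2 | h2
    · exfalso
      have h3 := pos_lt (⟨j, i⟩ : Ix J)
      have h4 := pos_ge (⟨j', i'⟩ : Ix J)
      have h5 : off ((j : ℕ) + 1) ≤ off (j' : ℕ) := off_mono (by have : (j : ℕ) < j' := h2; omega)
      simp only at h3 h4
      omega
    · exact h2
    · exfalso
      have h3 := pos_lt (⟨j', i'⟩ : Ix J)
      have h4 := pos_ge (⟨j, i⟩ : Ix J)
      have h5 : off ((j' : ℕ) + 1) ≤ off (j : ℕ) := off_mono (by have : (j' : ℕ) < j := h2; omega)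
      simp only at h3 h4
      omega
  subst h1
  have h2 : (i : ℕ) = i' := by
    unfold pos at h
    simp only at h
    omega
  have h3 : i = i' := Fin.ext h2
  rw [h3]

open Classical in
/-- the primitive forms outside the sequence with coefficients at most `J` -/
noncomputable def RR (f : ℕ → ℤ × ℤ) (J : ℕ) : Finset (ℤ × ℤ) :=
  ((Icc (-(J : ℤ)) J) ×ˢ (Icc (-(J : ℤ)) J)).filter (fun r => 0 < r.1 ∧ IsCoprime r.1 r.2 ∧ ∀ t, r ≠ f t)

theorem RR_out (f : ℕ → ℤ × ℤ) (J : ℕ) : Out f (RR f J) := by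
  intro r hr
  unfold RR at hr
  simp only [mem_filter] at hr
  exact hr.2

theorem RR_mono (f : ℕ → ℤ × ℤ) {i J : ℕ} (h : i ≤ J) : RR f i ⊆ RR f J := by
  intro r hr
  unfold RR at hr ⊢
  simp only [mem_filter, mem_product, mem_Icc] at hr ⊢
  have h' : (i : ℤ) ≤ J := by exact_mod_cast h
  exact ⟨⟨⟨by linarith, by linarith⟩, ⟨by linarith, by linarith⟩⟩, hr.2⟩

theorem RR_ex (f : ℕ → ℤ × ℤ) (R : Finset (ℤ × ℤ)) (hR : Out f R) : ∃ J, R ⊆ RR f J := by
  refine ⟨∑ r ∈ R, (r.1.natAbs + r.2.natAbs), fun r hr => ?_⟩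
  have h1 : r.1.natAbs + r.2.natAbs ≤ ∑ r ∈ R, (r.1.natAbs + r.2.natAbs) :=
    Finset.single_le_sum (f := fun r : ℤ × ℤ => r.1.natAbs + r.2.natAbs) (fun _ _ => Nat.zero_le _) hr
  unfold RR
  simp only [mem_filter, mem_product, mem_Icc]
  refine ⟨⟨⟨?_, ?_⟩, ⟨?_, ?_⟩⟩, hR r hr⟩ <;> omega

theorem FA_of {α β : Type*} [Fintype β] (P0 : β → ℝ) (h0 : ∀ T, 0 ≤ P0 T) (h1 : ∑ T, P0 T = 1) (g : β → α) :
    FA (fun A : Set α => ∑ T, A.indicator (fun _ => P0 T) (g T)) := by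
  refine ⟨fun A => sum_nonneg fun T _ => Set.indicator_nonneg (fun _ _ => h0 T) _, fun A => ?_,
    fun A B hAB => ?_⟩
  · rw [← h1]
    exact sum_le_sum fun T _ => Set.indicator_le_self' (fun _ _ => h0 T) _
  · show (∑ T, (A ∪ B).indicator (fun _ => P0 T) (g T)) = _
    rw [← sum_add_distrib]
    refine sum_congr rfl fun T _ => ?_
    rw [Set.indicator_union_of_disjoint hAB]

/-- an infinite subsequence all of whose initial segments are exact -/
theorem inf_path {f : ℕ → ℤ × ℤ} (hf : Seq f) (M : Set ℕ) (hM : M.Infinite) :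
    ∃ N ⊆ M, N.Infinite ∧ ∀ k, Phi f (cut N k) := by
  classical
  obtain ⟨w, hw, hwM, hloc⟩ := sub_adm hf M hM
  set V : ℕ → Finset ℕ := fun i => (range (off i)).image w with hV
  have hVmem : ∀ i t, t ∈ V i ↔ ∃ l < off i, w l = t := by
    intro i t
    simp only [hV, mem_image, mem_range]
  set G : ℕ → Finset ℕ → Prop := fun i τ => ∃ C,
    Often C (fun n => (∀ t < w (off i), (Pr (f t) n ↔ t ∈ τ)) ∧ ∀ r ∈ RR f i, ¬ Pr r n) with hG
  -- the measures
  have hP : ∀ J : ℕ, ∃ P0 : Finset (Ix (J + 1)) → ℝ, (∀ T, 0 ≤ P0 T) ∧ ∑ T, P0 T = 1 ∧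
      (∀ j : Fin (J + 1), (1 / 10 ^ 6 : ℝ) ≤
        ∑ T ∈ univ.filter (fun T => ∃ i, (⟨j, i⟩ : Ix (J + 1)) ∈ T), P0 T) ∧
      ∀ T, P0 T ≠ 0 → ∃ C, Often C (fun n => (∀ t < w (off (J + 1)), (Pr (f t) n ↔
        t ∈ T.image (fun s => w (pos s)))) ∧ ∀ r ∈ RR f (J + 1), ¬ Pr r n) := by
    intro J
    obtain ⟨C, hC⟩ := prob_int (J + 1) (by omega)
    set Fam : Finset (ℤ × ℤ) := (range (w (off (J + 1)))).image f ∪ RR f (J + 1) with hFam
    have hFamP : ∀ r ∈ Fam, 0 < r.1 ∧ IsCoprime r.1 r.2 := by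
      intro r hr
      rw [hFam, mem_union] at hr
      rcases hr with hr | hr
      · obtain ⟨t, _, rfl⟩ := mem_image.1 hr
        exact ⟨hf.pos t, hf.prim t⟩
      · exact ⟨(RR_out f _ r hr).1, (RR_out f _ r hr).2.1⟩
    have hg : ∀ s : Ix (J + 1), f (w (pos s)) ∈ Fam := by
      intro s
      rw [hFam]
      exact mem_union_left _ (mem_image_of_mem _ (mem_range.2 (hw (pos_lt' s))))
    obtain ⟨P0, h1, h2, h3, h4⟩ := hC (ι := {r // r ∈ Fam}) (fun r => r.1.1) (fun r => r.1.2)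
      (fun r => (hFamP _ r.2).1)
      (by
        intro r r' hrr he
        apply hrr
        obtain ⟨h1, h2⟩ := prim_eq (hFamP _ r.2).1 (hFamP _ r'.2).1 (hFamP _ r.2).2 (hFamP _ r'.2).2 he
        exact Subtype.ext (Prod.ext h1 h2))
      (fun s => ⟨f (w (pos s)), hg s⟩)
      (by
        intro s s' hss
        exact pos_inj (hw.injective (hf.inj (Subtype.ext_iff.1 hss))))
      (by
        intro p hp
        obtain ⟨n, hn⟩ := hloc p hp
        exact ⟨n, fun s => hn (pos s)⟩)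
    refine ⟨P0, h1, h2, h3, fun T hT => ⟨C, (h4 T hT).mono fun n hn => ⟨fun t ht => ?_, fun r hr => ?_⟩⟩⟩
    · have h5 := hn ⟨f t, by rw [hFam]; exact mem_union_left _ (mem_image_of_mem _ (mem_range.2 ht))⟩
      show ((f t).1 * (n : ℤ) + (f t).2).natAbs.Prime ↔ _
      rw [h5, mem_image]
      constructor
      · rintro ⟨s, hs, he⟩
        exact ⟨s, hs, hf.inj (Subtype.ext_iff.1 he)⟩
      · rintro ⟨s, hs, he⟩
        exact ⟨s, hs, Subtype.ext (congrArg f he)⟩
    · have h5 := hn ⟨r, by rw [hFam]; exact mem_union_right _ hr⟩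
      intro h6
      obtain ⟨s, _, he⟩ := h5.1 h6
      exact (RR_out f _ r hr).2.2 _ (Subtype.ext_iff.1 he).symm
  choose P0 hP0 hP1 hP2 hP3 using hP
  obtain ⟨x, hxV, hxG, hxinf⟩ := path V
    (fun i j hij => image_subset_image (range_subset_range.2 (off_mono hij)))
    (by simp [hV, off]) G
    (fun J A => ∑ T, A.indicator (fun _ => P0 J T) (T.image (fun s : Ix (J + 1) => w (pos s))))
    (fun J => FA_of (P0 J) (hP0 J) (hP1 J) _)
    (by
      intro i J hiJ
      apply sum_eq_zero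
      intro T _
      by_cases h : T.image (fun s : Ix (J + 1) => w (pos s)) ∈ {T' | ¬ G i (T' ∩ V i)}
      · rw [Set.indicator_of_mem h]
        by_contra hcon
        apply h
        obtain ⟨C, hC⟩ := hP3 J T hcon
        refine ⟨C, hC.mono fun n hn => ⟨fun t ht => ?_, fun r hr => hn.2 r (RR_mono f (by omega) hr)⟩⟩
        have h1 : w (off i) ≤ w (off (J + 1)) := hw.monotone (off_mono (by omega))
        rw [hn.1 t (by omega), mem_inter]
        constructor
        · intro h2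
          refine ⟨h2, ?_⟩
          obtain ⟨s, _, rfl⟩ := mem_image.1 h2
          rw [hVmem]
          exact ⟨pos s, hw.lt_iff_lt.1 ht, rfl⟩
        · exact fun h2 => h2.1
      · rw [Set.indicator_of_notMem h])
    (1 / 10 ^ 6) (by norm_num)
    (by
      intro i J hiJ
      obtain ⟨i0, hi0⟩ : ∃ i0 : Fin (J + 1), (i0 : ℕ) = i := ⟨⟨i, by omega⟩, rfl⟩
      refine (hP2 J i0).trans ?_
      rw [sum_filter]
      refine sum_le_sum fun T _ => ?_
      by_cases h : ∃ i', (⟨i0, i'⟩ : Ix (J + 1)) ∈ T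
      · rw [if_pos h, Set.indicator_of_mem]
        obtain ⟨i', hi'⟩ := h
        refine ⟨w (pos (⟨i0, i'⟩ : Ix (J + 1))), ?_⟩
        rw [mem_inter, Finset.mem_sdiff, hVmem, hVmem]
        refine ⟨mem_image_of_mem _ hi', ⟨_, ?_, rfl⟩, ?_⟩
        · have h1 := pos_lt (⟨i0, i'⟩ : Ix (J + 1))
          simp only [hi0] at h1
          exact h1
        · rintro ⟨l, hl, he⟩
          have h1 := pos_ge (⟨i0, i'⟩ : Ix (J + 1))
          have h2 := hw.injective he
          simp only [hi0] at h1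
          omega
      · rw [if_neg h]
        exact Set.indicator_nonneg (fun _ _ => hP0 J T) _)
  refine ⟨x, ?_, ?_, fun k => ?_⟩
  · intro t ht
    obtain ⟨i, hi⟩ := Set.mem_iUnion.1 (hxV ht)
    obtain ⟨l, _, rfl⟩ := (hVmem i t).1 hi
    exact hwM l
  · rw [Set.infinite_iff_exists_gt]
    intro n
    obtain ⟨i, hi, t, ht, htV⟩ := hxinf (n + 1)
    rw [Finset.mem_sdiff, hVmem, hVmem] at htV
    obtain ⟨⟨l, hl, rfl⟩, h2⟩ := htV
    refine ⟨w l, ht, ?_⟩
    have h3 : off i ≤ l := by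
      by_contra hcon
      exact h2 ⟨l, by omega, rfl⟩
    have h4 := off_ge i
    have h5 := hw.le_apply (x := l)
    omega
  · intro R hR
    obtain ⟨J, hJ⟩ := RR_ex f R hR
    obtain ⟨i, hi⟩ : ∃ i, i = J + k := ⟨_, rfl⟩
    have hki : k ≤ w (off i) := by
      have h4 := off_ge i
      have h5 := hw.le_apply (x := off i)
      omega
    obtain ⟨C, hC⟩ := hxG i ((V i).filter (fun t => t ∈ x)) (fun t => by rw [mem_filter])
    refine ⟨C, hC.mono fun n hn => ⟨fun t ht => ?_, fun r hr => hn.2 r (RR_mono f (by omega) (hJ hr))⟩⟩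
    obtain ⟨y, hy, hty⟩ := ht
    rw [mem_cut] at hy
    rw [hn.1 t (by omega), mem_filter, mem_cut]
    constructor
    · rintro ⟨_, h2⟩
      exact ⟨by omega, h2⟩
    · rintro ⟨h1, h2⟩
      refine ⟨?_, h2⟩
      obtain ⟨i', hi'⟩ := Set.mem_iUnion.1 (hxV h2)
      obtain ⟨l, _, rfl⟩ := (hVmem i' t).1 hi'
      rw [hVmem]
      exact ⟨l, hw.lt_iff_lt.1 (h1.trans_le hki), rfl⟩

/-- **The theorem for one sequence.** -/
theorem full_one {f : ℕ → ℤ × ℤ} (hf : Seq f) (A : Set ℕ) (hA : A.Infinite) :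
    ∃ T ⊆ A, T.Infinite ∧ Full f T := by
  classical
  obtain ⟨T, hTA, hT, h | h⟩ := galvin (fun s => ¬ Phi f s) A hA
  · refine ⟨T, hTA, hT, fun J hJ k R hR => ?_⟩
    obtain ⟨t₀, ht₀, hlt⟩ := hT.exists_gt (k + J.sup id)
    have hJt : ∀ t ∈ J, t < t₀ := by
      intro t ht
      have h1 : t ≤ J.sup id := Finset.le_sup (f := id) ht
      omega
    have h1 : Phi f (insert t₀ J) := by
      by_contra hcon
      refine h (insert t₀ J) ?_ hcon
      rw [coe_insert]
      exact Set.insert_subset ht₀ hJ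
    obtain ⟨C, hC⟩ := h1 R hR
    refine ⟨C, hC.mono fun n hn => ⟨fun t ht => ?_, fun t ht => ?_, hn.2⟩⟩
    · rw [hn.1 t ⟨t₀, mem_insert_self _ _, by omega⟩, mem_insert]
      constructor
      · rintro (h2 | h2)
        · omega
        · exact h2
      · exact fun h2 => Or.inr h2
    · rw [hn.1 t ⟨t₀, mem_insert_self _ _, (hJt t ht).le⟩]
      exact mem_insert_of_mem ht
  · exfalso
    obtain ⟨N, hN, hNi, hNk⟩ := inf_path hf T hT
    obtain ⟨k, hk⟩ := h N hN hNi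
    exact hk (hNk k)

/-- **Countably many sequences.** -/
theorem full_all {ι : Type} [Countable ι] (f : ι → ℕ → ℤ × ℤ) (hf : ∀ i, Seq (f i)) (A : Set ℕ)
    (hA : A.Infinite) : ∃ T ⊆ A, T.Infinite ∧ ∀ i, ∃ t₀, Full (f i) {t | t ∈ T ∧ t₀ ≤ t} := by
  classical
  rcases isEmpty_or_nonempty ι with hι | hι
  · exact ⟨A, subset_rfl, hA, fun i => (hι.false i).elim⟩
  obtain ⟨g, hg⟩ := exists_surjective_nat ι
  have hstep : ∀ (j : ℕ) (Y : {Y : Set ℕ // Y.Infinite}), ∃ Z : {Y : Set ℕ // Y.Infinite},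
      Z.1 ⊆ Y.1 ∧ Full (f (g j)) Z.1 := by
    intro j Y
    obtain ⟨Z, h1, h2, h3⟩ := full_one (hf (g j)) Y.1 Y.2
    exact ⟨⟨Z, h2⟩, h1, h3⟩
  choose ref hsub hgood using hstep
  let Y : ℕ → {Y : Set ℕ // Y.Infinite} := fun n => Nat.rec (ref 0 ⟨A, hA⟩)
    (fun j Z => ref (j + 1) Z) n
  have hYs : ∀ n, Y (n + 1) = ref (n + 1) (Y n) := fun n => rfl
  have hmono : ∀ a b, a ≤ b → (Y b).1 ⊆ (Y a).1 := by
    intro a b hab
    induction b, hab using Nat.le_induction with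
    | base => exact subset_rfl
    | succ b _ ih => rw [hYs]; exact (hsub _ _).trans ih
  have hYA : ∀ n, (Y n).1 ⊆ A := fun n => (hmono 0 n (Nat.zero_le _)).trans (hsub _ _)
  have hY : ∀ j, Full (f (g j)) (Y j).1 := by
    intro j
    cases j with
    | zero => exact hgood 0 _
    | succ j => rw [hYs]; exact hgood _ _
  have hex : ∀ (j n : ℕ), ∃ x, x ∈ (Y j).1 ∧ n < x := fun j n => (Y j).2.exists_gt n
  choose c hc1 hc2 using hex
  let w : ℕ → ℕ := fun n => Nat.rec (c 0 0) (fun j x => c (j + 1) x) n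
  have hws : ∀ n, w (n + 1) = c (n + 1) (w n) := fun n => rfl
  have hwm : StrictMono w := strictMono_nat_of_lt_succ (fun n => by rw [hws]; exact hc2 _ _)
  have hwY : ∀ n, w n ∈ (Y n).1 := by
    intro n
    cases n with
    | zero => exact hc1 0 0
    | succ n => rw [hws]; exact hc1 (n + 1) (w n)
  refine ⟨Set.range w, ?_, Set.infinite_range_of_injective hwm.injective, fun i => ?_⟩
  · rintro _ ⟨n, rfl⟩
    exact hYA n (hwY n)
  · obtain ⟨j, rfl⟩ := hg i
    refine ⟨w j, (hY j).mono ?_⟩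
    rintro _ ⟨⟨n, rfl⟩, hn⟩
    exact hmono j n (hwm.le_iff_le.1 hn) (hwY n)

end Pool.Agent.K1H86.TZ
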