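import Mathlib
import Pool.Agent.K1H86.TZ.Full

/-! Corollaries of the theorem on infinite sequences of linear forms: shifts and chains (helper86). -/

set_option autoImplicit false

namespace Pool.Agent.K1H86.TZ

open Finset Filter
open Pool.Agent.K1H86.PP (Often Seq prim_eq adm_large imprim Often.mono Often.shift)

/-- the exact set of the prime values with an index in `J ∪ K` -/
theorem Full.exact {f : ℕ → ℤ × ℤ} {T : Set ℕ} (h : Full f T) (J : Finset ℕ) (hJ : (J : Set ℕ) ⊆ T)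
    (K : Finset ℕ) (R : Finset (ℤ × ℤ)) (hR : Out f R) : ∃ C, Often C (fun n =>
      (∀ t ∈ J ∪ K, (Pr (f t) n ↔ t ∈ J)) ∧ ∀ r ∈ R, ¬ Pr r n) := by
  obtain ⟨C, hC⟩ := h J hJ (K.sup id + 1) R hR
  refine ⟨C, hC.mono fun n hn => ⟨fun t ht => ?_, hn.2.2⟩⟩
  rcases mem_union.1 ht with ht | ht
  · exact ⟨fun _ => ht, fun _ => hn.2.1 t ht⟩
  · exact hn.1 t (Nat.lt_succ_of_le (Finset.le_sup (f := id) ht))

/-- the patterns in terms of the prime value `q` of the form `s` -/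
theorem Full.chain {f : ℕ → ℤ × ℤ} (hf : Seq f) {T : Set ℕ} (hF : Full f T)
    (J : Finset ℕ) (hJ : (J : Set ℕ) ⊆ T) {s : ℕ} (hs : s ∈ J) (K : Finset ℕ)
    (hdvd : ∀ t ∈ J ∪ K, (f s).1 ∣ (f t).1)
    (R : Finset (ℤ × ℤ)) (hR : ∀ r ∈ R, 1 ≤ r.1 ∧ ∀ t, (r.1 * (f s).1, r.1 * (f s).2 + r.2) ≠ f t) :
    ∃ C, Often C (fun q => q.Prime ∧ ((f s).1 ∣ (q : ℤ) - (f s).2) ∧
      (∀ t ∈ J ∪ K, ((∃ p : ℕ, p.Prime ∧
        ((f t).2 - (f t).1 / (f s).1 * (f s).2) + q * ((f t).1 / (f s).1) = p) ↔ t ∈ J)) ∧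
      ∀ r ∈ R, ¬ (r.2 + q * r.1).natAbs.Prime) := by
  classical
  have hfs := hf.pos s
  set R' : Finset (ℤ × ℤ) := (R.image (fun r => (r.1 * (f s).1, r.1 * (f s).2 + r.2))).filter
    (fun g => IsCoprime g.1 g.2) with hR'
  obtain ⟨C, hP1⟩ := hF.exact J hJ K R' (by
    intro g hg
    rw [hR', mem_filter, mem_image] at hg
    obtain ⟨⟨r, hr, rfl⟩, hgc⟩ := hg
    obtain ⟨h1, h2⟩ := hR r hr
    exact ⟨by positivity, hgc, h2⟩)
  have hsE : s ∈ J ∪ K := mem_union_left _ hs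
  set n₀ : ℕ := ∑ t ∈ J ∪ K, (f t).2.natAbs + ∑ r ∈ R, ((r.1 * (f s).2 + r.2).natAbs + 2) with hn₀
  refine ⟨C + 2, Often.shift (f s).1 (f s).2 hfs n₀ hP1 ?_⟩
  intro n hn htr
  have hposE : ∀ t ∈ J ∪ K, 0 ≤ (f t).1 * n + (f t).2 := by
    intro t ht
    have h1 : (f t).2.natAbs ≤ ∑ t ∈ J ∪ K, (f t).2.natAbs :=
      Finset.single_le_sum (f := fun t => (f t).2.natAbs) (fun _ _ => Nat.zero_le _) ht
    have h2 : ((f t).2.natAbs : ℤ) ≤ n := by exact_mod_cast (by omega : (f t).2.natAbs ≤ n)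
    have h3 := hf.pos t
    have h4 : (n : ℤ) ≤ (f t).1 * n := by nlinarith
    omega
  obtain ⟨q, hq⟩ := Int.eq_ofNat_of_zero_le (hposE s hsE)
  have hval : ∀ t ∈ J ∪ K, ((f t).2 - (f t).1 / (f s).1 * (f s).2) + (q : ℤ) * ((f t).1 / (f s).1) =
      (f t).1 * n + (f t).2 := by
    intro t ht
    obtain ⟨c, hc⟩ := hdvd t ht
    have h1 : (f t).1 / (f s).1 = c := by rw [hc]; exact Int.mul_ediv_cancel_left _ hfs.ne'
    have h2 : (q : ℤ) = (f s).1 * n + (f s).2 := hq.symm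
    rw [h1, h2, hc]
    ring
  refine ⟨q, hq.symm, ?_, ?_, fun t ht => ?_, fun r hr => ?_⟩
  · have h1 := (htr.1 s hsE).2 hs
    unfold Pr at h1
    rw [hq] at h1
    simpa using h1
  · have h2 : (q : ℤ) = (f s).1 * n + (f s).2 := hq.symm
    rw [h2, add_sub_cancel_right]
    exact dvd_mul_right _ _
  · rw [← htr.1 t ht, hval t ht]
    unfold Pr
    obtain ⟨v, hv⟩ := Int.eq_ofNat_of_zero_le (hposE t ht)
    rw [hv]
    constructor
    · rintro ⟨p, hp, he⟩
      have h1 : v = p := by exact_mod_cast he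
      simpa [h1] using hp
    · intro h
      exact ⟨v, by simpa using h, rfl⟩
  · obtain ⟨hr1, hr2⟩ := hR r hr
    have h1 : r.2 + (q : ℤ) * r.1 = (r.1 * (f s).1) * n + (r.1 * (f s).2 + r.2) := by
      have h2 : (q : ℤ) = (f s).1 * n + (f s).2 := hq.symm
      rw [h2]
      ring
    rw [h1]
    by_cases hc : IsCoprime (r.1 * (f s).1) (r.1 * (f s).2 + r.2)
    · exact htr.2 (r.1 * (f s).1, r.1 * (f s).2 + r.2) (by
        rw [hR', mem_filter, mem_image]
        exact ⟨⟨r, hr, rfl⟩, hc⟩)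
    · apply imprim (by positivity) hc
      have h9 : (r.1 * (f s).2 + r.2).natAbs + 2 ≤ ∑ r ∈ R, ((r.1 * (f s).2 + r.2).natAbs + 2) :=
        Finset.single_le_sum (f := fun r : ℤ × ℤ => (r.1 * (f s).2 + r.2).natAbs + 2)
          (fun _ _ => Nat.zero_le _) hr
      omega

/-- a subsequence along which a given integer sequence is eventually constant modulo every `q` -/
theorem residues {ι : Type} [Countable ι] (g : ι → ℕ → ℤ) (A : Set ℕ) (hA : A.Infinite) :
    ∃ T ⊆ A, T.Infinite ∧ ∀ i, ∀ q : ℕ, 0 < q → ∃ c : ℤ, ∃ t₀ : ℕ, ∀ t ∈ T, t₀ ≤ t → (q : ℤ) ∣ g i t - c := by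
  classical
  rcases isEmpty_or_nonempty ι with hι | hι
  · exact ⟨A, subset_rfl, hA, fun i => (hι.false i).elim⟩
  obtain ⟨e, he⟩ := exists_surjective_nat (ι × ℕ)
  have href : ∀ (k : ℕ) (Y : {Y : Set ℕ // Y.Infinite}), ∃ Z : {Y : Set ℕ // Y.Infinite}, Z.1 ⊆ Y.1 ∧
      ∀ s ∈ Z.1, ∀ t ∈ Z.1, (((e k).2 + 1 : ℕ) : ℤ) ∣ g (e k).1 s - g (e k).1 t := by
    rintro k ⟨Y, hY⟩
    have : NeZero ((e k).2 + 1) := ⟨by omega⟩
    have := hY.to_subtype
    obtain ⟨c, hc⟩ := Finite.exists_infinite_fiber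
      (fun t : Y => ((g (e k).1 t : ℤ) : ZMod ((e k).2 + 1)))
    refine ⟨⟨{t | t ∈ Y ∧ ((g (e k).1 t : ℤ) : ZMod ((e k).2 + 1)) = c}, ?_⟩,
      fun t ht => ht.1, fun s hs t ht => ?_⟩
    · have h1 : ((fun t : Y => ((g (e k).1 t : ℤ) : ZMod ((e k).2 + 1))) ⁻¹' {c}).Infinite :=
        Set.infinite_coe_iff.1 hc
      refine (h1.image (Set.injOn_of_injective Subtype.val_injective)).mono ?_
      rintro _ ⟨t, ht, rfl⟩
      exact ⟨t.2, ht⟩
    · have h3 := ht.2.trans hs.2.symm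
      rw [ZMod.intCast_eq_intCast_iff_dvd_sub] at h3
      exact h3
  choose ref hsub hgood using href
  let Y : ℕ → {Y : Set ℕ // Y.Infinite} := fun n => Nat.rec (ref 0 ⟨A, hA⟩) (fun j Z => ref (j + 1) Z) n
  have hYs : ∀ n, Y (n + 1) = ref (n + 1) (Y n) := fun n => rfl
  have hmono : ∀ a b, a ≤ b → (Y b).1 ⊆ (Y a).1 := by
    intro a b hab
    induction b, hab using Nat.le_induction with
    | base => exact subset_rfl
    | succ b _ ih => rw [hYs]; exact (hsub _ _).trans ih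
  have hYM : ∀ n, (Y n).1 ⊆ A := fun n => (hmono 0 n (Nat.zero_le _)).trans (hsub _ _)
  have hY : ∀ j, ∀ s ∈ (Y j).1, ∀ t ∈ (Y j).1, (((e j).2 + 1 : ℕ) : ℤ) ∣ g (e j).1 s - g (e j).1 t := by
    intro j
    cases j with
    | zero => exact hgood 0 _
    | succ j => rw [hYs]; exact hgood _ _
  have hex : ∀ (j n : ℕ), ∃ x, x ∈ (Y j).1 ∧ n < x := fun j n => (Y j).2.exists_gt n
  choose c hc1 hc2 using hex
  let w : ℕ → ℕ := fun n => Nat.rec (c 0 0) (fun j x => c (j + 1) x) n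
  have hws : ∀ n, w (n + 1) = c (n + 1) (w n) := fun n => rfl
  have hwm : StrictMono w := strictMono_nat_of_lt_succ (fun n => by rw [hws]; exact hc2 _ _)
  have hwY : ∀ n, w n ∈ (Y n).1 := by
    intro n
    cases n with
    | zero => exact hc1 0 0
    | succ n => rw [hws]; exact hc1 (n + 1) (w n)
  refine ⟨Set.range w, ?_, Set.infinite_range_of_injective hwm.injective, fun i q hq => ?_⟩
  · rintro _ ⟨n, rfl⟩
    exact hYM n (hwY n)
  · obtain ⟨j, hj⟩ := he (i, q - 1)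
    refine ⟨g i (w j), w j, ?_⟩
    rintro _ ⟨n, rfl⟩ hn
    have h1 : j ≤ n := hwm.le_iff_le.1 hn
    have h2 := hY j (w n) (hmono j n h1 (hwY n)) (w j) (hwY j)
    rw [hj] at h2
    simp only [Nat.sub_add_cancel hq] at h2
    exact h2

/-- the shifts of the primes `p ≡ r` modulo `q` by the differences of the members of a sequence -/
theorem shifts {ι : Type} [Countable ι] (g : ι → ℕ → ℤ) (hg : ∀ i, Function.Injective (g i)) (A : Set ℕ)
    (hA : A.Infinite) : ∃ T ⊆ A, T.Infinite ∧ ∀ i, ∀ q r : ℕ, 0 < q → Nat.Coprime r q → ∃ t₀ : ℕ,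
      ∀ J : Finset ℕ, (J : Set ℕ) ⊆ T → (∀ t ∈ J, t₀ ≤ t) → ∀ s ∈ J, ∀ H : Finset ℤ, ∃ C,
        Often C (fun p => p.Prime ∧ p ≡ r [MOD q] ∧
          (∀ t ∈ J, ∃ p' : ℕ, p'.Prime ∧ (p : ℤ) + (g i t - g i s) = p') ∧
          ∀ h ∈ H, (∀ t ∈ J, h ≠ g i t - g i s) → ¬ ∃ p' : ℕ, p'.Prime ∧ (p : ℤ) + h = p') := by
  classical
  obtain ⟨M, hMA, hM, hres⟩ := residues g A hA
  choose c t₁ hc using hres
  -- the sequences of forms
  set I : Type := ι × {z : ℕ × ℕ // 0 < z.1 ∧ Nat.Coprime z.2 z.1} with hI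
  set F : I → ℕ → ℤ × ℤ := fun z t =>
    if IsCoprime (z.2.1.1 : ℤ) ((z.2.1.2 : ℤ) + g z.1 t - c z.1 z.2.1.1 z.2.2.1)
    then ((z.2.1.1 : ℤ), (z.2.1.2 : ℤ) + g z.1 t - c z.1 z.2.1.1 z.2.2.1) else (1, (t : ℤ)) with hFdef
  have hF : ∀ z, Seq (F z) := by
    intro z
    refine ⟨fun t => ?_, fun t => ?_, fun s t hst => ?_⟩
    · rw [hFdef]
      simp only
      split_ifs
      · show (0 : ℤ) < (z.2.1.1 : ℤ)
        exact_mod_cast z.2.2.1
      · exact one_pos
    · rw [hFdef]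
      simp only
      split_ifs with h
      · exact h
      · exact isCoprime_one_left
    · rw [hFdef] at hst
      simp only at hst
      by_cases hs : IsCoprime (z.2.1.1 : ℤ) ((z.2.1.2 : ℤ) + g z.1 s - c z.1 z.2.1.1 z.2.2.1)
      · rw [if_pos hs] at hst
        by_cases ht : IsCoprime (z.2.1.1 : ℤ) ((z.2.1.2 : ℤ) + g z.1 t - c z.1 z.2.1.1 z.2.2.1)
        · rw [if_pos ht] at hst
          apply hg z.1
          have h1 := (Prod.mk.inj hst).2
          linarith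
        · exfalso
          rw [if_neg ht] at hst
          apply ht
          rw [(Prod.mk.inj hst).1]
          exact isCoprime_one_left
      · rw [if_neg hs] at hst
        by_cases ht : IsCoprime (z.2.1.1 : ℤ) ((z.2.1.2 : ℤ) + g z.1 t - c z.1 z.2.1.1 z.2.2.1)
        · exfalso
          rw [if_pos ht] at hst
          apply hs
          rw [← (Prod.mk.inj hst).1]
          exact isCoprime_one_left
        · rw [if_neg ht] at hst
          exact_mod_cast (Prod.mk.inj hst).2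
  obtain ⟨T, hTM, hT, hTE⟩ := full_all F hF M hM
  refine ⟨T, hTM.trans hMA, hT, fun i q r hq hqr => ?_⟩
  set z : I := (i, ⟨(q, r), hq, hqr⟩) with hz
  obtain ⟨t₀, ht₀⟩ := hTE z
  have hqrI : IsCoprime (q : ℤ) (r : ℤ) := Nat.isCoprime_iff_coprime.2 hqr.symm
  -- large members of `T` have the good form
  have hgood : ∀ t ∈ T, t₁ i q hq ≤ t → F z t = ((q : ℤ), (r : ℤ) + g i t - c i q hq) := by
    intro t ht h1
    rw [hFdef]
    simp only [hz]
    rw [if_pos]
    have h2 := hc i q hq t (hTM ht) h1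
    obtain ⟨v, hv⟩ := h2
    have h3 : (r : ℤ) + g i t - c i q hq = r + q * v := by linarith
    rw [h3]
    exact IsCoprime.add_mul_left_right hqrI v
  refine ⟨max t₀ (t₁ i q hq), fun J hJ hJt s hs H => ?_⟩
  have hsg := hgood s (hJ hs) ((le_max_right _ _).trans (hJt s hs))
  have hJg : ∀ t ∈ J, F z t = ((q : ℤ), (r : ℤ) + g i t - c i q hq) := fun t ht =>
    hgood t (hJ ht) ((le_max_right _ _).trans (hJt t ht))
  -- the translates which are not in the pattern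
  set H' : Finset ℤ := H.filter (fun h => ∀ t ∈ J, h ≠ g i t - g i s) with hH'
  set R : Finset (ℤ × ℤ) := (H'.filter (fun h => ∀ t, (1 * (F z s).1, 1 * (F z s).2 + h) ≠ F z t)).image
    (fun h => (1, h)) with hR
  -- the indices of the translates which belong to the sequence
  have hk : ∃ k : ℕ, ∀ h ∈ H', ∀ t, (1 * (F z s).1, 1 * (F z s).2 + h) = F z t → t < k := by
    have h1 : ∀ h : ℤ, ∃ k : ℕ, ∀ t, (1 * (F z s).1, 1 * (F z s).2 + h) = F z t → t < k := by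
      intro h
      by_cases hex : ∃ t, (1 * (F z s).1, 1 * (F z s).2 + h) = F z t
      · obtain ⟨t, ht⟩ := hex
        refine ⟨t + 1, fun t' ht' => ?_⟩
        have := (hF z).inj (ht.symm.trans ht')
        omega
      · exact ⟨0, fun t ht => absurd ⟨t, ht⟩ hex⟩
    choose k hk using h1
    refine ⟨∑ h ∈ H', k h, fun h hh t ht => (hk h t ht).trans_le ?_⟩
    exact Finset.single_le_sum (f := k) (fun _ _ => Nat.zero_le _) hh
  obtain ⟨k, hk⟩ := hk
  set K : Finset ℕ := (range k).filter (fun t => (F z t).1 = (F z s).1) with hK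
  obtain ⟨C, hC⟩ := Full.chain (hF z) ht₀ J (fun t ht => ⟨hJ ht, (le_max_left _ _).trans (hJt t ht)⟩) hs K
    (by
      intro t ht
      rcases mem_union.1 ht with ht | ht
      · rw [hsg, hJg t ht]
      · rw [hK, mem_filter] at ht
        rw [ht.2])
    R (by
      intro v hv
      rw [hR, mem_image] at hv
      obtain ⟨h, hh, rfl⟩ := hv
      exact ⟨le_rfl, (mem_filter.1 hh).2⟩)
  refine ⟨C, hC.mono fun p hp => ⟨hp.1, ?_, fun t ht => ?_, fun h hh hhJ => ?_⟩⟩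
  · have h1 := hp.2.1
    rw [hsg] at h1
    simp only at h1
    have h2 := hc i q hq s (hTM (hJ hs)) ((le_max_right _ _).trans (hJt s hs))
    have h3 : (q : ℤ) ∣ (p : ℤ) - r := by
      have h4 : (p : ℤ) - r = (p - (r + g i s - c i q hq)) + (g i s - c i q hq) := by ring
      rw [h4]
      exact dvd_add h1 h2
    exact ((Nat.modEq_iff_dvd).2 h3).symm
  · obtain ⟨p', hp', he⟩ := (hp.2.2.1 t (mem_union_left _ ht)).2 ht
    refine ⟨p', hp', ?_⟩
    rw [← he, hsg, hJg t ht]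
    have hq0 : (q : ℤ) ≠ 0 := by exact_mod_cast hq.ne'
    simp only [Int.ediv_self hq0]
    ring
  · have hhH' : h ∈ H' := mem_filter.2 ⟨hh, hhJ⟩
    by_cases hex : ∃ t, (1 * (F z s).1, 1 * (F z s).2 + h) = F z t
    · obtain ⟨t, ht⟩ := hex
      have htk := hk h hhH' t ht
      have ht1 : (F z t).1 = (F z s).1 := by rw [← ht]; simp
      have ht2 : (F z t).2 = (F z s).2 + h := by rw [← ht]; simp
      have htK : t ∈ K := mem_filter.2 ⟨mem_range.2 htk, ht1⟩
      have htJ : t ∉ J := by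
        intro htJ
        apply hhJ t htJ
        have h5 := ht2
        rw [hJg t htJ, hsg] at h5
        simp only at h5
        linarith
      have h6 := hp.2.2.1 t (mem_union_right _ htK)
      rintro ⟨p', hp', he⟩
      apply htJ
      rw [← h6]
      have hq0 : (F z s).1 ≠ 0 := ((hF z).pos s).ne'
      refine ⟨p', hp', ?_⟩
      rw [ht1, ht2, Int.ediv_self hq0, ← he]
      ring
    · have h7 := hp.2.2.2 (1, h) (by
        rw [hR, mem_image]
        refine ⟨h, mem_filter.2 ⟨hhH', fun t ht => hex ⟨t, ht⟩⟩, rfl⟩)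
      rintro ⟨p', hp', he⟩
      apply h7
      rw [mul_one, add_comm, he]
      simpa using hp'

end Pool.Agent.K1H86.TZ
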